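import Pool.Agent.H475.QZ.Stm

/-!
Linear independence of `1, ζ_q(2), ζ_q(3)`: definitions (helper475).
`p : ℤ`, `2 ≤ |p|`, `q = 1/p`; `w ∈ ℤ[X]` a weight of degree `s - 1`, `s = 2, 3`, `w(0) = 0`.
The definitions `RpS, D, pik, VV, Sg, xx, XX, QQ, EE, nu, ea, ww` are those of
`Pool.Agent.H475.QZ`.
-/

namespace Pool.Agent.H475.QL

open Finset Pool.Agent.H475.QZ

/-- Admissible pairs: `w` has degree exactly `s - 1`, `2 ≤ s ≤ 3` and `w(0) = 0`. -/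
def Adm (w : Polynomial ℤ) (s : ℕ) : Prop :=
  2 ≤ s ∧ s ≤ 3 ∧ w.natDegree < s ∧ w.coeff (s - 1) ≠ 0 ∧ w.coeff 0 = 0

/-- `c_e = w(e)/(p^e-1)` (rational; `c_0 = 0`). -/
def c (w : Polynomial ℤ) (p : ℤ) (e : ℕ) : ℚ := ((w.eval (e : ℤ) : ℤ) : ℚ) / ((p : ℚ) ^ e - 1)

/-- `R(P) = ∑_{e ≥ 1} w(e) P^(-e)` for `w` of degree at most two. -/
def RR (w : Polynomial ℤ) (P : ℚ) : ℚ :=
  (w.coeff 0 : ℚ) / (P - 1) + (w.coeff 1 : ℚ) * P / (P - 1) ^ 2 +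
    (w.coeff 2 : ℚ) * (P * (P + 1)) / (P - 1) ^ 3

/-- `h_k = ∑_{l=1}^k R(p^l)`. -/
def hh (w : Polynomial ℤ) (p : ℤ) (k : ℕ) : ℚ := ∑ l ∈ Icc 1 k, RR w ((p : ℚ) ^ l)

/-- The entries with a free rational variable `z` in place of `zeta w p`. -/
def Az (w : Polynomial ℤ) (p : ℤ) (z : ℚ) (k J : ℕ) : ℚ :=
  (p : ℚ) ^ (k * J) * (z - hh w p k) - ∑ e ∈ Icc 1 J, (p : ℚ) ^ (k * (J - e)) * c w p e

/-- The matrix `(Az (k, M+j))`, `0 ≤ k, j < N`. -/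
def AzM (w : Polynomial ℤ) (p : ℤ) (z : ℚ) (M N : ℕ) : Matrix (Fin N) (Fin N) ℚ :=
  Matrix.of fun k j => Az w p z (k : ℕ) (M + (j : ℕ))

/-- `c_e` as a real number. -/
noncomputable def cR (w : Polynomial ℤ) (p : ℤ) (e : ℕ) : ℝ :=
  ((w.eval (e : ℤ) : ℤ) : ℝ) / ((p : ℝ) ^ e - 1)

/-- `zeta w p = ∑_{e ≥ 1} w(e)/(p^e-1)` (the term `e = 0` is zero). -/
noncomputable def zeta (w : Polynomial ℤ) (p : ℤ) : ℝ := ∑' e : ℕ, cR w p e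

/-- `a(k,J) = ∑_{e ≥ 1} q^{k e} c_{e+J}`. -/
noncomputable def a (w : Polynomial ℤ) (p : ℤ) (k J : ℕ) : ℝ :=
  ∑' e : ℕ, ((p : ℝ) ^ (k * (e + 1)))⁻¹ * cR w p (e + 1 + J)

/-- The real matrix `(a(k, M+j))`, `0 ≤ k, j < N`. -/
noncomputable def A (w : Polynomial ℤ) (p : ℤ) (M N : ℕ) : Matrix (Fin N) (Fin N) ℝ :=
  Matrix.of fun k j => a w p (k : ℕ) (M + (j : ℕ))

/-- The product of all denominators. -/
noncomputable def DD (s : ℕ) (p : ℤ) (M N : ℕ) : ℤ :=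
  (∏ k ∈ range N, D p k ^ s) * ∏ j ∈ range N, D p (M + j)

/-- `κ_t(F) = ∑_j w_j j! coeff_j [X_t^{M+1} F(X_t) / Q(X_t)]`. -/
noncomputable def kap (w : Polynomial ℤ) (p : ℤ) (M N t : ℕ) (F : Polynomial ℝ) : ℝ :=
  ∑ j ∈ range 3, (w.coeff j : ℝ) * (j.factorial : ℝ) *
    PowerSeries.coeff j (XX p t ^ (M + 1) * Polynomial.aeval (XX p t) F * (QQ p N t)⁻¹)

/-- The bilinear form
`L(F,G) = ∑_k ∑_j F(p^k)/π_k · a(k,M+j) · G_j`. -/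
noncomputable def LL (w : Polynomial ℤ) (p : ℤ) (M N : ℕ) (F G : Polynomial ℝ) : ℝ :=
  ∑ k ∈ range N, ∑ j ∈ range N,
    F.eval ((p : ℝ) ^ k) / pik ℝ p N k * a w p k (M + j) * G.coeff j

/-- `F_{(a,c)} = E_a^s (T - x_{a+1})^c`. -/
noncomputable def FF (s : ℕ) (p : ℤ) (a c : ℕ) : Polynomial ℝ :=
  EE p a ^ s * (Polynomial.X - Polynomial.C (xx p (a + 1))) ^ c

/-- The constant `C_w = 2 · 13^6 · (7/2)^4 · 3^12 · ∑ |w_j|`. -/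
noncomputable def Cw (w : Polynomial ℤ) : ℝ :=
  2 * 13 ^ 6 * (7 / 2) ^ 4 * 3 ^ 12 * ∑ j ∈ range 3, |(w.coeff j : ℝ)|

end Pool.Agent.H475.QL
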