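import Pool.Agent.H475.QL.Stm

/-!
Closed form of `a(k,J)` (weights `w` of degree at most two with `w(0) = 0`).
-/

namespace Pool.Agent.H475.QL

open Finset Polynomial Pool.Agent.H475.QZ

namespace P_CF

/-- the values of an admissible weight -/
lemma evalw {w : Polynomial ℤ} {s : ℕ} (hw : Adm w s) (e : ℕ) :
    ((w.eval (e : ℤ) : ℤ) : ℝ) = (w.coeff 1 : ℝ) * (e : ℝ) + (w.coeff 2 : ℝ) * (e : ℝ) ^ 2 := by
  obtain ⟨_, h3, hd, _, h0⟩ := hw
  rw [Polynomial.eval_eq_sum_range' (show w.natDegree < 3 by omega)]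
  simp only [Finset.sum_range_succ, Finset.sum_range_zero, h0]
  push_cast
  ring

/-- `∑ n y^n`. -/
lemma lin_sum {y : ℝ} (hy : ‖y‖ < 1) :
    HasSum (fun e : ℕ => ((e : ℝ) + 1) * y ^ (e + 1)) (y / (1 - y) ^ 2) := by
  have h2 := (hasSum_choose_mul_geometric_of_norm_lt_one 1 hy).mul_left y
  have h4 : (fun e : ℕ => ((e : ℝ) + 1) * y ^ (e + 1)) = fun e : ℕ =>
      y * ((((e + 1).choose 1 : ℕ) : ℝ) * y ^ e) := by
    funext e
    rw [Nat.choose_one_right]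
    push_cast
    ring
  have h5 : y / (1 - y) ^ 2 = y * (1 / (1 - y) ^ (1 + 1)) := by
    ring
  rw [h4, h5]
  exact h2

/-- `∑ n^2 y^n`. -/
lemma sq_sum {y : ℝ} (hy : ‖y‖ < 1) :
    HasSum (fun e : ℕ => ((e : ℝ) + 1) ^ 2 * y ^ (e + 1)) (y * (1 + y) / (1 - y) ^ 3) := by
  have h0 : (1 : ℝ) - y ≠ 0 := by
    intro h
    have h1 : y = 1 := by linarith
    rw [h1, norm_one] at hy
    exact lt_irrefl _ hy
  have h1 := hasSum_choose_mul_geometric_of_norm_lt_one 2 hy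
  have h2 := hasSum_choose_mul_geometric_of_norm_lt_one 1 hy
  have h3 := ((h1.mul_left 2).sub h2).mul_left y
  have h4 : (fun e : ℕ => ((e : ℝ) + 1) ^ 2 * y ^ (e + 1)) = fun e : ℕ =>
      y * (2 * ((((e + 2).choose 2 : ℕ) : ℝ) * y ^ e) - (((e + 1).choose 1 : ℕ) : ℝ) * y ^ e) := by
    funext e
    rw [Nat.cast_choose_two, Nat.choose_one_right]
    push_cast
    ring
  have h5 : y * (1 + y) / (1 - y) ^ 3 =
      y * (2 * (1 / (1 - y) ^ (2 + 1)) - 1 / (1 - y) ^ (1 + 1)) := by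
    field_simp
    ring
  rw [h4, h5]
  exact h3

/-- `∑ w(n) y^n`. -/
lemma w_sum {w : Polynomial ℤ} {s : ℕ} (hw : Adm w s) {y : ℝ} (hy : ‖y‖ < 1) :
    HasSum (fun e : ℕ => ((w.eval ((e + 1 : ℕ) : ℤ) : ℤ) : ℝ) * y ^ (e + 1))
      ((w.coeff 1 : ℝ) * (y / (1 - y) ^ 2) + (w.coeff 2 : ℝ) * (y * (1 + y) / (1 - y) ^ 3)) := by
  have h1 := ((lin_sum hy).mul_left (w.coeff 1 : ℝ)).add ((sq_sum hy).mul_left (w.coeff 2 : ℝ))
  have h2 : (fun e : ℕ => ((w.eval ((e + 1 : ℕ) : ℤ) : ℤ) : ℝ) * y ^ (e + 1)) = fun e : ℕ =>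
      (w.coeff 1 : ℝ) * (((e : ℝ) + 1) * y ^ (e + 1)) +
        (w.coeff 2 : ℝ) * (((e : ℝ) + 1) ^ 2 * y ^ (e + 1)) := by
    funext e
    rw [evalw hw]
    push_cast
    ring
  rw [h2]
  exact h1

/-- the terms of `b_k` -/
noncomputable def t (w : Polynomial ℤ) (p : ℤ) (k e : ℕ) : ℝ :=
  ((p : ℝ) ^ (k * (e + 1)))⁻¹ * cR w p (e + 1)

lemma abs_pow_gt {p : ℤ} (hp : 2 ≤ |p|) (k : ℕ) : 1 < |(p : ℝ) ^ (k + 1)| := by
  have h1 : (2 : ℝ) ≤ |(p : ℝ)| := by exact_mod_cast hp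
  rw [abs_pow]
  exact one_lt_pow₀ (by linarith) (Nat.succ_ne_zero k)

lemma p_ne {p : ℤ} (hp : 2 ≤ |p|) : (p : ℝ) ≠ 0 := by
  intro h
  have h1 : (2 : ℝ) ≤ |(p : ℝ)| := by exact_mod_cast hp
  rw [h, abs_zero] at h1
  linarith

lemma pow_ne_one {p : ℤ} (hp : 2 ≤ |p|) (k : ℕ) : (p : ℝ) ^ (k + 1) - 1 ≠ 0 := by
  intro h
  have h1 := abs_pow_gt hp k
  have h2 : (p : ℝ) ^ (k + 1) = 1 := by linarith
  rw [h2, abs_one] at h1
  exact lt_irrefl _ h1

lemma t_sub (w : Polynomial ℤ) {p : ℤ} (hp : 2 ≤ |p|) (k e : ℕ) :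
    t w p k e - t w p (k + 1) e =
      ((w.eval ((e + 1 : ℕ) : ℤ) : ℤ) : ℝ) * (((p : ℝ) ^ (k + 1))⁻¹) ^ (e + 1) := by
  have h1 := pow_ne_one hp e
  have h2 : (p : ℝ) ^ (e + 1) ≠ 0 := pow_ne_zero _ (p_ne hp)
  have h3 : (p : ℝ) ^ (k * (e + 1)) ≠ 0 := pow_ne_zero _ (p_ne hp)
  have h4 : (p : ℝ) ^ ((k + 1) * (e + 1)) = (p : ℝ) ^ (k * (e + 1)) * (p : ℝ) ^ (e + 1) := by
    rw [← pow_add]
    congr 1
    ring
  have h5 : (((p : ℝ) ^ (k + 1))⁻¹) ^ (e + 1) =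
      ((p : ℝ) ^ (k * (e + 1)) * (p : ℝ) ^ (e + 1))⁻¹ := by
    rw [inv_pow, ← pow_mul, h4]
  unfold t cR
  rw [h4, h5]
  generalize ((w.eval ((e + 1 : ℕ) : ℤ) : ℤ) : ℝ) = W
  field_simp

lemma b_zero {w : Polynomial ℤ} {s : ℕ} {p : ℤ} (hw : Adm w s) (hS : Summable (cR w p)) :
    ∑' e, t w p 0 e = zeta w p := by
  unfold zeta
  rw [hS.tsum_eq_zero_add]
  have h1 : cR w p 0 = 0 := by
    unfold cR
    rw [evalw hw]
    simp
  rw [h1, zero_add]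
  refine tsum_congr fun e => ?_
  simp [t]

lemma b_eq {w : Polynomial ℤ} {s : ℕ} {p : ℤ} (hw : Adm w s) (hp : 2 ≤ |p|)
    (hS : Summable (cR w p)) (ht : ∀ k, Summable (t w p k)) (k : ℕ) :
    ∑' e, t w p k e = zeta w p - ((hh w p k : ℚ) : ℝ) := by
  induction k with
  | zero =>
    rw [b_zero hw hS]
    simp [hh]
  | succ k ih =>
    set y : ℝ := ((p : ℝ) ^ (k + 1))⁻¹ with hy
    have hy1 : ‖y‖ < 1 := by
      rw [hy, norm_inv, Real.norm_eq_abs]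
      exact inv_lt_one_of_one_lt₀ (abs_pow_gt hp k)
    have h1 : ∑' e, t w p k e - ∑' e, t w p (k + 1) e =
        (w.coeff 1 : ℝ) * (y / (1 - y) ^ 2) + (w.coeff 2 : ℝ) * (y * (1 + y) / (1 - y) ^ 3) := by
      rw [← (ht k).tsum_sub (ht (k + 1))]
      rw [← (w_sum hw hy1).tsum_eq]
      exact tsum_congr fun e => t_sub w hp k e
    have h2 : hh w p (k + 1) = hh w p k + RR w ((p : ℚ) ^ (k + 1)) := by
      unfold hh
      rw [Finset.sum_Icc_succ_top (by omega)]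
    have h3 : (w.coeff 1 : ℝ) * (y / (1 - y) ^ 2) +
        (w.coeff 2 : ℝ) * (y * (1 + y) / (1 - y) ^ 3) =
        ((RR w ((p : ℚ) ^ (k + 1)) : ℚ) : ℝ) := by
      have h4 := pow_ne_one hp k
      have h5 : (p : ℝ) ^ (k + 1) ≠ 0 := pow_ne_zero _ (p_ne hp)
      have h6 : y * (p : ℝ) ^ (k + 1) = 1 := by rw [hy]; exact inv_mul_cancel₀ h5
      have h0 : w.coeff 0 = 0 := hw.2.2.2.2
      unfold RR
      rw [h0]
      push_cast
      rw [zero_div, zero_add]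
      generalize (p : ℝ) ^ (k + 1) = P at h4 h5 h6
      have h7 : 1 - y ≠ 0 := by
        intro h
        have h8 : y = 1 := by linarith
        rw [h8, one_mul] at h6
        exact h4 (by linarith)
      have h8 : y = P⁻¹ := eq_inv_of_mul_eq_one_left h6
      have h9 : y / (1 - y) ^ 2 = P / (P - 1) ^ 2 := by
        rw [div_eq_div_iff (pow_ne_zero 2 h7) (pow_ne_zero 2 h4)]
        rw [h8]
        field_simp
      have h10 : y * (1 + y) / (1 - y) ^ 3 = P * (P + 1) / (P - 1) ^ 3 := by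
        rw [div_eq_div_iff (pow_ne_zero 3 h7) (pow_ne_zero 3 h4)]
        rw [h8]
        field_simp
      rw [h9, h10]
      ring
    rw [h2]
    push_cast
    rw [← h3, ← h1, ih]
    ring

end P_CF

open P_CF in
theorem t_CF (hSUM : S_SUM) : S_CF := by
  intro w s hw p hp k J
  obtain ⟨hS1, hS2⟩ := hSUM w s hw p hp
  have ht : ∀ k, Summable (t w p k) := fun k => hS1 k 0
  have h1 := (ht k).sum_add_tsum_nat_add J
  rw [b_eq hw hp hS2 ht k] at h1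
  have hp0 := p_ne hp
  have h2 : a w p k J = (p : ℝ) ^ (k * J) * ∑' e, t w p k (e + J) := by
    unfold a
    rw [← tsum_mul_left]
    refine tsum_congr fun e => ?_
    have h3 : (p : ℝ) ^ (k * (e + J + 1)) = (p : ℝ) ^ (k * J) * (p : ℝ) ^ (k * (e + 1)) := by
      rw [← pow_add]
      congr 1
      ring
    have h4 : (p : ℝ) ^ (k * J) ≠ 0 := pow_ne_zero _ hp0
    have h5 : e + J + 1 = e + 1 + J := by ring
    unfold t
    rw [h3, mul_inv, h5]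
    rw [mul_assoc, ← mul_assoc, mul_inv_cancel₀ h4, one_mul]
  have h3 : ∑ e ∈ Icc 1 J, (p : ℝ) ^ (k * (J - e)) * ((c w p e : ℚ) : ℝ) =
      (p : ℝ) ^ (k * J) * ∑ e ∈ range J, t w p k e := by
    have h4 : Icc 1 J = (range J).image (fun e => e + 1) := by
      ext x
      simp only [mem_Icc, mem_image, mem_range]
      constructor
      · intro h
        exact ⟨x - 1, by omega, by omega⟩
      · rintro ⟨y, hy, rfl⟩
        omega
    rw [h4, Finset.sum_image (fun x _ y _ h => Nat.succ_injective h), Finset.mul_sum]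
    refine Finset.sum_congr rfl fun e he => ?_
    rw [mem_range] at he
    have h5 : (p : ℝ) ^ (k * J) = (p : ℝ) ^ (k * (J - (e + 1))) * (p : ℝ) ^ (k * (e + 1)) := by
      rw [← pow_add, ← mul_add]
      congr 2
      omega
    have h6 : (p : ℝ) ^ (k * (e + 1)) ≠ 0 := pow_ne_zero _ hp0
    have h7 : ((c w p (e + 1) : ℚ) : ℝ) = cR w p (e + 1) := by
      unfold c cR
      push_cast
      rfl
    unfold t
    rw [h7, h5, mul_assoc, ← mul_assoc ((p : ℝ) ^ (k * (e + 1))), mul_inv_cancel₀ h6, one_mul]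
  rw [h2, h3, ← h1]
  ring

end Pool.Agent.H475.QL
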