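import Pool.Agent.H475.QL.Stm
import Pool.Agent.H475.QZ.P_HR
import Pool.Agent.H475.QZ.P_DET
import Pool.Agent.H475.QZ.P_CP

/-! Task CP: the `p`-adic gain. -/

set_option autoImplicit false

namespace Pool.Agent.H475.QL

open Finset Polynomial Pool.Agent.H475.QZ

namespace P_CP

theorem c_mem (w : Polynomial ℤ) {p : ℤ} (hp : 2 ≤ |p|) {e : ℕ} (he : 1 ≤ e) :
    QL.c w p e ∈ RpS p := by
  have h1 := inv_mem_RpS (Pool.Agent.H475.QZ.P_CP.pow_sub_coprime (p := p) he)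
    (Pool.Agent.H475.QZ.P_CP.pow_sub_ne hp he)
  have h2 := int_mem_RpS p (w.eval (e : ℤ))
  have h3 : QL.c w p e = ((w.eval (e : ℤ) : ℤ) : ℚ) * (((p ^ e - 1 : ℤ) : ℚ))⁻¹ := by
    unfold QL.c
    push_cast
    rw [div_eq_mul_inv]
  rw [h3]
  exact mul_mem h2 h1

/-- the entries -/
theorem entry_mem (hHS : QL.S_HS) {w : Polynomial ℤ} {s : ℕ} (hw : Adm w s) {p : ℤ}
    (hp : 2 ≤ |p|) {z : ℚ} {b m : ℤ} (hz : (b : ℚ) * z = m) (N i J : ℕ) :
    (b : ℚ) * ∑ k ∈ range N, ((p : ℚ) ^ k) ^ i / pik ℚ p N k * QL.Az w p z k J ∈ RpS p := by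
  have key : (b : ℚ) * ∑ k ∈ range N, ((p : ℚ) ^ k) ^ i / pik ℚ p N k * QL.Az w p z k J =
      (m : ℚ) * ∑ k ∈ range N, (p : ℚ) ^ (k * (i + J)) / pik ℚ p N k -
      (b : ℚ) * ∑ k ∈ range N, (p : ℚ) ^ (k * (i + J)) * QL.hh w p k / pik ℚ p N k -
      (b : ℚ) * ∑ e ∈ Icc 1 J, QL.c w p e *
        ∑ k ∈ range N, (p : ℚ) ^ (k * (i + J - e)) / pik ℚ p N k := by
    have h1 : ∑ e ∈ Icc 1 J, QL.c w p e *
          ∑ k ∈ range N, (p : ℚ) ^ (k * (i + J - e)) / pik ℚ p N k =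
        ∑ k ∈ range N, ∑ e ∈ Icc 1 J,
          QL.c w p e * ((p : ℚ) ^ (k * (i + J - e)) / pik ℚ p N k) := by
      rw [sum_comm]
      exact sum_congr rfl fun e _ => mul_sum _ _ _
    rw [h1, mul_sum, mul_sum, mul_sum, mul_sum, ← sum_sub_distrib, ← sum_sub_distrib]
    refine sum_congr rfl fun k _ => ?_
    have h2 : ∑ e ∈ Icc 1 J, QL.c w p e * ((p : ℚ) ^ (k * (i + J - e)) / pik ℚ p N k) =
        (p : ℚ) ^ (k * i) / pik ℚ p N k *
          ∑ e ∈ Icc 1 J, (p : ℚ) ^ (k * (J - e)) * QL.c w p e := by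
      rw [mul_sum]
      refine sum_congr rfl fun e he => ?_
      have h3 : k * (i + J - e) = k * i + k * (J - e) := by
        have h4 := (mem_Icc.1 he).2
        rw [Nat.add_sub_assoc h4, mul_add]
      rw [h3, pow_add]
      ring
    rw [h2, ← hz, mul_add k i J, pow_add, ← pow_mul]
    unfold QL.Az
    ring
  rw [key]
  obtain ⟨n, hn⟩ := t_HR p hp N (i + J)
  refine sub_mem (sub_mem (mul_mem (int_mem_RpS p m) ?_) (mul_mem (int_mem_RpS p b) ?_))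
    (mul_mem (int_mem_RpS p b) (sum_mem fun e he => mul_mem (c_mem w hp (mem_Icc.1 he).1) ?_))
  · rw [hn]
    exact int_mem_RpS p n
  · exact hHS w s hw p hp N (i + J)
  · obtain ⟨n', hn'⟩ := t_HR p hp N (i + J - e)
    rw [hn']
    exact int_mem_RpS p n'

end P_CP

theorem t_CP (hHS : QL.S_HS) : QL.S_CP := by
  intro w s hw p hp z b m hz M N
  set S : Matrix (Fin N) (Fin N) ℚ := Matrix.of fun i j : Fin N => ∑ k : Fin N, ∑ l : Fin N,
      ((X : ℚ[X]) ^ (i : ℕ)).eval ((p : ℚ) ^ (k : ℕ)) / pik ℚ p N k * QL.AzM w p z M N k l *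
        ((X : ℚ[X]) ^ (j : ℕ)).coeff l with hS
  have hdet : |(QL.AzM w p z M N).det| = |VV ℚ p N| * |S.det| :=
    t_DET ℚ p hp N (QL.AzM w p z M N) (fun i => X ^ (i : ℕ)) (fun i => X ^ (i : ℕ))
      (fun i => ⟨monic_X_pow _, natDegree_X_pow _⟩) (fun i => ⟨monic_X_pow _, natDegree_X_pow _⟩)
  have hSe : ∀ i j, S i j = ∑ k ∈ range N, ((p : ℚ) ^ k) ^ (i : ℕ) / pik ℚ p N k *
      QL.Az w p z k (M + (j : ℕ)) := by
    intro i j
    rw [hS, sum_range]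
    simp only [Matrix.of_apply]
    refine sum_congr rfl fun k _ => ?_
    rw [sum_eq_single j]
    · rw [coeff_X_pow, if_pos rfl, mul_one, eval_pow, eval_X]
      rfl
    · intro l _ hl
      rw [coeff_X_pow, if_neg (fun h => hl (Fin.ext h)), mul_zero]
    · intro h
      exact absurd (mem_univ j) h
  have hbS : (b : ℚ) ^ N * S.det ∈ RpS p := by
    have h1 : (b : ℚ) ^ N * S.det = ((b : ℚ) • S).det := by
      rw [Matrix.det_smul, Fintype.card_fin]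
    rw [h1]
    refine Pool.Agent.H475.QZ.P_CP.det_mem _ fun i j => ?_
    rw [Matrix.smul_apply, smul_eq_mul, hSe]
    exact P_CP.entry_mem hHS hw hp hz N i (M + (j : ℕ))
  obtain ⟨U, hU⟩ := Pool.Agent.H475.QZ.P_CP.VV_eq p N
  have hp0 : (p : ℚ) ≠ 0 := by
    intro h
    have h1 : p = 0 := by exact_mod_cast h
    rw [h1] at hp
    norm_num at hp
  refine Pool.Agent.H475.QZ.P_CP.mem_of_abs (y := (U : ℚ) * ((b : ℚ) ^ N * S.det)) ?_
    (mul_mem (int_mem_RpS p U) hbS)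
  have hpS : |(p : ℚ) ^ Sg N| ≠ 0 := abs_ne_zero.2 (pow_ne_zero _ hp0)
  rw [abs_div, abs_mul, hdet, hU, abs_mul, abs_mul, abs_mul]
  field_simp

end Pool.Agent.H475.QL
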