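import Pool.Agent.H475.QL.Stm
import Pool.Agent.H475.QZ.P_DK
import Pool.Agent.H475.QZ.P_PHI
import Pool.Agent.H475.QZ.P_TOT

/-!
# Bound for the product of all denominators
-/

set_option autoImplicit false

namespace Pool.Agent.H475.QL

open Finset Polynomial Pool.Agent.H475.QZ

namespace P_DDB

/-- the exponent in the bound for `D_k` -/
def ex (k : ℕ) : ℕ := 50 * k + 8 * (k + 30) * (k + 60)

theorem sum_le (s M N : ℕ) (hs : s ≤ 3) :
    3 * (∑ k ∈ range N, ex k * s + ∑ j ∈ range N, ex (M + j)) ≤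
    8 * (s + 1) * N ^ 3 + (172800 + 2310 * M + 24 * M ^ 2) * N ^ 2 := by
  induction N with
  | zero => simp
  | succ N ih =>
    rw [sum_range_succ, sum_range_succ]
    have h : 3 * (ex N * s + ex (M + N)) + 8 * (s + 1) * N ^ 3 +
        (172800 + 2310 * M + 24 * M ^ 2) * N ^ 2 ≤
        8 * (s + 1) * (N + 1) ^ 3 + (172800 + 2310 * M + 24 * M ^ 2) * (N + 1) ^ 2 := by
      unfold ex
      interval_cases s <;>
      nlinarith [Nat.zero_le (M * N), Nat.zero_le (M ^ 2 * N), Nat.zero_le N, Nat.zero_le M]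
    omega

theorem prod_le (p : ℤ) (s : Finset ℕ) (f : ℕ → ℤ) (g : ℕ → ℕ) (h : ∀ i ∈ s, |f i| ^ 25 ≤ |p| ^ g i) :
    |∏ i ∈ s, f i| ^ 25 ≤ |p| ^ (∑ i ∈ s, g i) := by
  rw [abs_prod, ← prod_pow, ← prod_pow_eq_pow_sum]
  exact prod_le_prod (fun i _ => by positivity) h

end P_DDB

open P_DDB

theorem P_DDB.of_DK (hDK : QZ.S_DK) : S_DDB := by
  intro s hs p hp M
  refine ⟨172800 + 2310 * M + 24 * M ^ 2, fun N _ => ?_⟩
  have hp1 : 1 ≤ |p| := by linarith
  have hp0 : 0 ≤ |p| := abs_nonneg p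
  have h1 : |∏ k ∈ range N, D p k ^ s| ^ 25 ≤ |p| ^ (∑ k ∈ range N, ex k * s) := by
    refine prod_le p _ _ _ fun k _ => ?_
    rw [abs_pow, ← pow_mul, mul_comm s 25, pow_mul, pow_mul]
    exact pow_le_pow_left₀ (by positivity) (hDK p hp k) s
  have h2 : |∏ j ∈ range N, D p (M + j)| ^ 25 ≤ |p| ^ (∑ j ∈ range N, ex (M + j)) :=
    prod_le p _ _ _ fun j _ => hDK p hp (M + j)
  have h3 : |DD s p M N| ^ 25 ≤
      |p| ^ (∑ k ∈ range N, ex k * s + ∑ j ∈ range N, ex (M + j)) := by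
    unfold DD
    rw [abs_mul, mul_pow, pow_add]
    exact mul_le_mul h1 h2 (by positivity) (by positivity)
  have h4 : |DD s p M N| ^ 75 ≤
      |p| ^ (3 * (∑ k ∈ range N, ex k * s + ∑ j ∈ range N, ex (M + j))) := by
    rw [show (75 : ℕ) = 25 * 3 by norm_num, pow_mul, mul_comm 3, pow_mul]
    exact pow_le_pow_left₀ (by positivity) h3 3
  exact h4.trans (pow_le_pow_right₀ hp1 (sum_le s M N hs))

theorem t_DDB : S_DDB := P_DDB.of_DK (QZ.t_DK QZ.t_PHI QZ.t_TOT)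

end Pool.Agent.H475.QL
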