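import Pool.Agent.H475.QL.Stm

/-!
Degrees and divisibility of the polynomials `FF`.
-/

set_option autoImplicit false

namespace Pool.Agent.H475.QL

open Finset Polynomial Pool.Agent.H475.QZ

namespace P_DEG

theorem EE_monic (p : ℤ) (a : ℕ) : (EE p a).Monic :=
  monic_prod_of_monic _ _ fun s _ => monic_X_sub_C _

theorem EE_natDegree (p : ℤ) (a : ℕ) : (EE p a).natDegree = a := by
  unfold EE
  rw [natDegree_prod_of_monic _ _ fun _ _ => monic_X_sub_C _]
  simp only [natDegree_X_sub_C, sum_const, Nat.card_Icc, smul_eq_mul, mul_one]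
  omega

end P_DEG

theorem t_DEG : S_DEG := by
  constructor
  · intro s p a c
    have h1 : (EE p a ^ s).Monic := (P_DEG.EE_monic p a).pow s
    have h2 : ((Polynomial.X - Polynomial.C (xx p (a + 1))) ^ c).Monic := (monic_X_sub_C _).pow c
    refine ⟨h1.mul h2, ?_⟩
    unfold FF
    rw [h1.natDegree_mul h2, (P_DEG.EE_monic p a).natDegree_pow, P_DEG.EE_natDegree,
      (monic_X_sub_C _).natDegree_pow, natDegree_X_sub_C, mul_one]
  · intro s p a c t h1 h2
    have h : (Polynomial.X - Polynomial.C (xx p t)) ∣ EE p a :=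
      Finset.dvd_prod_of_mem (fun s => Polynomial.X - Polynomial.C (xx p s))
        (Finset.mem_Icc.2 ⟨h1, h2⟩)
    exact (pow_dvd_pow_of_dvd h s).mul_right _

end Pool.Agent.H475.QL
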