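import Pool.Agent.H475.QL.Stm
import Pool.Agent.H475.QZ.P_FIN

namespace Pool.Agent.H475.QL

open Finset Polynomial Pool.Agent.H475.QZ

namespace P_FIN

theorem DD_ne_zero (s : ℕ) (p : ℤ) (hp : 2 ≤ |p|) (M N : ℕ) : DD s p M N ≠ 0 := by
  unfold DD
  refine mul_ne_zero ?_ ?_
  · rw [Finset.prod_ne_zero_iff]
    intro i _
    exact pow_ne_zero _ (QZ.P_FIN.D_ne_zero p hp i)
  · rw [Finset.prod_ne_zero_iff]
    intro i _
    exact QZ.P_FIN.D_ne_zero p hp _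

end P_FIN

set_option maxRecDepth 20000 in
open P_FIN in
theorem t_FIN (hCF : S_CF) (hINT : S_INT) (hCP : S_CP) (hDDB : S_DDB) (hUP : S_UP)
    (hNZ : S_NZ) : S_FIN := by
  intro w s hAdm p hp hrat
  obtain ⟨z, hz⟩ := hrat
  obtain ⟨M, hM⟩ := hNZ w s hAdm p hp
  obtain ⟨C, hC⟩ := hUP w s hAdm p hp M
  have hs2 : 2 ≤ s := hAdm.1
  have hs3 : s ≤ 3 := hAdm.2.1
  obtain ⟨C', hC'⟩ := hDDB s hs3 p hp M
  set b : ℕ := z.den with hbdef
  have hb1 : 1 ≤ b := z.den_pos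
  have hbz : ((b : ℤ) : ℚ) * z = (z.num : ℤ) := by
    have := Rat.mul_den_eq_num z
    rw [mul_comm] at this
    push_cast
    exact_mod_cast this
  obtain ⟨K, hK⟩ : ∃ K : ℕ, K = 675 + 25 * C + 18 * C' + 450 * b + 1 := ⟨_, rfl⟩
  have hK1 : 1 ≤ K := by omega
  obtain ⟨N, hN⟩ : ∃ N : ℕ, N = s * K := ⟨_, rfl⟩
  have hN1 : 1 ≤ N := by rw [hN]; exact Nat.mul_pos (by omega) hK1
  have hpR : (2 : ℝ) ≤ |(p : ℝ)| := by exact_mod_cast hp
  have hp1 : (1 : ℝ) < |(p : ℝ)| := by linarith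
  have hp0 : (p : ℝ) ≠ 0 := by
    intro h
    rw [h, abs_zero] at hpR
    linarith
  have hpZ : p ≠ 0 := by
    intro h
    rw [h] at hp
    simp at hp
  -- the real matrix is the image of the rational one
  have hA : A w p M N = (AzM w p z M N).map (algebraMap ℚ ℝ) := by
    ext k j
    simp only [A, AzM, Matrix.of_apply, Matrix.map_apply, Az, hCF w s hAdm p hp, ← hz]
    simp
  have hdet : (A w p M N).det = (((AzM w p z M N).det : ℚ) : ℝ) := by
    rw [hA, ← RingHom.mapMatrix_apply, ← RingHom.map_det]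
    simp
  obtain ⟨X, hX⟩ := hINT w s hAdm p hp z b z.num hbz M N
  have hXR : (X : ℝ) = (b : ℝ) ^ N * (A w p M N).det * (DD s p M N : ℝ) := by
    rw [hdet]
    have h := congrArg (fun x : ℚ => (x : ℝ)) hX
    simp only [Rat.cast_mul, Rat.cast_pow, Rat.cast_intCast] at h
    simpa only [Int.cast_natCast] using h
  have hX0 : X ≠ 0 := by
    intro h
    rw [h] at hXR
    have h1 : (b : ℝ) ^ N * (A w p M N).det * (DD s p M N : ℝ) ≠ 0 := by
      refine mul_ne_zero (mul_ne_zero ?_ (hN ▸ hM K)) ?_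
      · exact pow_ne_zero _ (by positivity)
      · exact_mod_cast DD_ne_zero s p hp M N
    exact h1 (by rw [← hXR]; simp)
  -- divisibility
  have hdvd : p ^ Sg N ∣ X := by
    obtain ⟨n, m', hn, hm'⟩ := hCP w s hAdm p hp z b z.num hbz M N
    have hps : (p : ℚ) ^ Sg N ≠ 0 := pow_ne_zero _ (by exact_mod_cast hpZ)
    have h1 : (n : ℚ) * (X : ℚ) = (p : ℚ) ^ Sg N * ((m' : ℚ) * (DD s p M N : ℚ)) := by
      rw [hX, ← hm']
      field_simp
    have h2 : n * X = p ^ Sg N * (m' * DD s p M N) := by exact_mod_cast h1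
    have h3 : p ^ Sg N ∣ n * X := ⟨_, h2⟩
    exact (IsCoprime.pow_left hn.symm).dvd_of_dvd_mul_left h3
  have hlow : (|(p : ℝ)|) ^ Sg N ≤ |(X : ℝ)| := by
    have h1 : |p ^ Sg N| ≤ |X| := by
      obtain ⟨y, hy⟩ := hdvd
      have hy0 : y ≠ 0 := by
        rintro rfl
        exact hX0 (by simpa using hy)
      rw [hy, abs_mul]
      exact le_mul_of_one_le_right (abs_nonneg _) (Int.one_le_abs hy0)
    rw [abs_pow] at h1
    exact_mod_cast h1
  -- the main inequality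
  have hup := hC K hK1
  rw [← hN] at hup
  have hDb : |(DD s p M N : ℝ)| ^ 75 ≤ |(p : ℝ)| ^ (8 * (s + 1) * N ^ 3 + C' * N ^ 2) := by
    have h := hC' N hN1
    exact_mod_cast h
  have hbb : (b : ℝ) ^ (150 * N) ≤ |(p : ℝ)| ^ (150 * b * N) := by
    have h1 : (b : ℝ) ≤ |(p : ℝ)| ^ b := by
      have h2 : (b : ℝ) ≤ 2 ^ b := by
        exact_mod_cast (Nat.lt_two_pow_self (n := b)).le
      exact h2.trans (pow_le_pow_left₀ (by norm_num) hpR b)
    calc (b : ℝ) ^ (150 * N) ≤ (|(p : ℝ)| ^ b) ^ (150 * N) :=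
          pow_le_pow_left₀ (by positivity) h1 _
      _ = |(p : ℝ)| ^ (150 * b * N) := by
          rw [← pow_mul]; congr 1; ring
  obtain ⟨G, hG⟩ : ∃ G : ℕ, G = (s ^ 3 + 2 * s ^ 2) * K ^ 3 := ⟨_, rfl⟩
  rw [← hG] at hup
  have key : |(p : ℝ)| ^ (150 * Sg N + 25 * G) ≤
      |(p : ℝ)| ^ (150 * b * N + 25 * (C * K ^ 2) + 2 * (8 * (s + 1) * N ^ 3 + C' * N ^ 2)) := by
    have e1 : |(p : ℝ)| ^ (150 * Sg N + 25 * G) =
        (|(p : ℝ)| ^ Sg N) ^ 150 * |(p : ℝ)| ^ (25 * G) := by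
      rw [pow_add, ← pow_mul, mul_comm 150]
    have e2 : |(X : ℝ)| ^ 150 * |(p : ℝ)| ^ (25 * G) =
        (b : ℝ) ^ (150 * N) * (|(A w p M N).det| ^ 6 * |(p : ℝ)| ^ G) ^ 25 *
          (|(DD s p M N : ℝ)| ^ 75) ^ 2 := by
      rw [hXR, abs_mul, abs_mul, abs_pow, Nat.abs_cast]
      ring
    rw [e1]
    calc (|(p : ℝ)| ^ Sg N) ^ 150 * |(p : ℝ)| ^ (25 * G)
        ≤ |(X : ℝ)| ^ 150 * |(p : ℝ)| ^ (25 * G) :=
          mul_le_mul_of_nonneg_right (pow_le_pow_left₀ (by positivity) hlow _) (by positivity)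
      _ = _ := e2
      _ ≤ |(p : ℝ)| ^ (150 * b * N) * (|(p : ℝ)| ^ (C * K ^ 2)) ^ 25 *
          (|(p : ℝ)| ^ (8 * (s + 1) * N ^ 3 + C' * N ^ 2)) ^ 2 :=
          mul_le_mul (mul_le_mul hbb (pow_le_pow_left₀ (by positivity) hup 25) (by positivity)
            (by positivity)) (pow_le_pow_left₀ (by positivity) hDb 2) (by positivity)
            (by positivity)
      _ = _ := by
          rw [← pow_mul, ← pow_mul, ← pow_add, ← pow_add]
          congr 1; ring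
  have key2 := (pow_le_pow_iff_right₀ hp1).mp key
  have key3 : (150 * (Sg N : ℤ)) + 25 * (((s : ℤ) ^ 3 + 2 * (s : ℤ) ^ 2) * (K : ℤ) ^ 3) ≤
      150 * b * (N : ℤ) + 25 * (C * (K : ℤ) ^ 2) +
        2 * (8 * ((s : ℤ) + 1) * (N : ℤ) ^ 3 + C' * (N : ℤ) ^ 2) := by
    rw [hG] at key2
    exact_mod_cast key2
  have hSg := QZ.P_FIN.Sg_eq N
  have hNK : (N : ℤ) = (s : ℤ) * (K : ℤ) := by rw [hN]; push_cast; ring
  rw [hNK] at hSg key3
  have hKZ : (K : ℤ) = 675 + 25 * C + 18 * C' + 450 * b + 1 := by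
    rw [hK]; push_cast; ring
  have hKpos : (1 : ℤ) ≤ K := by exact_mod_cast hK1
  have hC0 : (0 : ℤ) ≤ C := by positivity
  have hC0' : (0 : ℤ) ≤ C' := by positivity
  have hb0 : (0 : ℤ) ≤ b := by positivity
  have hbK : (b : ℤ) * K ≤ b * (K : ℤ) ^ 2 := by nlinarith
  have hK2 : (0 : ℤ) < (K : ℤ) ^ 2 := by positivity
  have key4 : (K : ℤ) ^ 3 ≤ ((K : ℤ) - 1) * (K : ℤ) ^ 2 := by
    have e : ((K : ℤ) - 1) = 675 + 25 * C + 18 * C' + 450 * b := by rw [hKZ]; ring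
    rw [e]
    have hs : s = 2 ∨ s = 3 := by omega
    rcases hs with h | h
    · subst h
      push_cast at hSg key3
      nlinarith
    · subst h
      push_cast at hSg key3
      nlinarith
  nlinarith

end Pool.Agent.H475.QL
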