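import Pool.Agent.H475.QL.Stm
import Pool.Agent.H475.QZ.P_LAG

/-! Task QL HLL (helper389). -/

namespace Pool.Agent.H475.QL

open Finset Polynomial Pool.Agent.H475.QZ

theorem t_HLL (hASER : S_ASER) : S_HLL := by
  intro w s hw p hp M N F G hF hG
  have key : ∀ t : ℕ, kap w p M N (t + 1) (F * G) = ∑ k ∈ range N, ∑ j ∈ range N,
      F.eval ((p : ℝ) ^ k) / pik ℝ p N k * (∑ i ∈ range 3, (w.coeff i : ℝ) * (i.factorial : ℝ) *
        PowerSeries.coeff i (XX p (t + 1) ^ (M + j + 1) *
        (PowerSeries.C ((p : ℝ) ^ k) - XX p (t + 1))⁻¹)) * G.coeff j := by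
    intro t
    have h1 := QZ.t_LAG p hp N (t + 1) (by omega) F hF
    have h2 : Polynomial.aeval (XX p (t + 1)) G =
        ∑ j ∈ range N, PowerSeries.C (G.coeff j) * XX p (t + 1) ^ j := by
      rw [Polynomial.aeval_eq_sum_range' hG]
      refine Finset.sum_congr rfl fun j _ => ?_
      rw [PowerSeries.smul_eq_C_mul]
    have h3 : XX p (t + 1) ^ (M + 1) * Polynomial.aeval (XX p (t + 1)) (F * G) *
        (QQ p N (t + 1))⁻¹ = ∑ k ∈ range N, ∑ j ∈ range N,
          PowerSeries.C (F.eval ((p : ℝ) ^ k) / pik ℝ p N k) * (XX p (t + 1) ^ (M + j + 1) *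
          (PowerSeries.C ((p : ℝ) ^ k) - XX p (t + 1))⁻¹) * PowerSeries.C (G.coeff j) := by
      rw [map_mul]
      calc XX p (t + 1) ^ (M + 1) * (Polynomial.aeval (XX p (t + 1)) F *
            Polynomial.aeval (XX p (t + 1)) G) * (QQ p N (t + 1))⁻¹
          = XX p (t + 1) ^ (M + 1) * ((Polynomial.aeval (XX p (t + 1)) F * (QQ p N (t + 1))⁻¹) *
            Polynomial.aeval (XX p (t + 1)) G) := by ring
        _ = _ := by
            rw [← h1, h2, Finset.sum_mul_sum, Finset.mul_sum]
            refine Finset.sum_congr rfl fun k _ => ?_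
            rw [Finset.mul_sum]
            refine Finset.sum_congr rfl fun j _ => ?_
            ring
    have h5 : ∀ i : ℕ, PowerSeries.coeff i (XX p (t + 1) ^ (M + 1) *
        Polynomial.aeval (XX p (t + 1)) (F * G) * (QQ p N (t + 1))⁻¹) =
        ∑ k ∈ range N, ∑ j ∈ range N, F.eval ((p : ℝ) ^ k) / pik ℝ p N k *
          (PowerSeries.coeff i (XX p (t + 1) ^ (M + j + 1) *
          (PowerSeries.C ((p : ℝ) ^ k) - XX p (t + 1))⁻¹)) * G.coeff j := by
      intro i
      rw [h3, map_sum]
      refine Finset.sum_congr rfl fun k _ => ?_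
      rw [map_sum]
      refine Finset.sum_congr rfl fun j _ => ?_
      rw [PowerSeries.coeff_mul_C, PowerSeries.coeff_C_mul]
    unfold kap
    calc ∑ i ∈ range 3, (w.coeff i : ℝ) * (i.factorial : ℝ) *
          PowerSeries.coeff i (XX p (t + 1) ^ (M + 1) *
            Polynomial.aeval (XX p (t + 1)) (F * G) * (QQ p N (t + 1))⁻¹)
        = ∑ i ∈ range 3, ∑ k ∈ range N, ∑ j ∈ range N,
            F.eval ((p : ℝ) ^ k) / pik ℝ p N k * ((w.coeff i : ℝ) * (i.factorial : ℝ) *
            PowerSeries.coeff i (XX p (t + 1) ^ (M + j + 1) *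
            (PowerSeries.C ((p : ℝ) ^ k) - XX p (t + 1))⁻¹)) * G.coeff j := by
          refine Finset.sum_congr rfl fun i _ => ?_
          rw [h5 i, Finset.mul_sum]
          refine Finset.sum_congr rfl fun k _ => ?_
          rw [Finset.mul_sum]
          refine Finset.sum_congr rfl fun j _ => ?_
          ring
      _ = _ := by
          rw [Finset.sum_comm]
          refine Finset.sum_congr rfl fun k _ => ?_
          rw [Finset.sum_comm]
          refine Finset.sum_congr rfl fun j _ => ?_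
          rw [Finset.mul_sum, Finset.sum_mul]
  have h4 : HasSum (fun t : ℕ => ∑ k ∈ range N, ∑ j ∈ range N,
      F.eval ((p : ℝ) ^ k) / pik ℝ p N k * (∑ i ∈ range 3, (w.coeff i : ℝ) * (i.factorial : ℝ) *
        PowerSeries.coeff i (XX p (t + 1) ^ (M + j + 1) *
        (PowerSeries.C ((p : ℝ) ^ k) - XX p (t + 1))⁻¹)) * G.coeff j) (LL w p M N F G) := by
    unfold LL
    refine hasSum_sum fun k _ => hasSum_sum fun j _ => ?_
    exact ((hASER w s hw p hp k (M + j)).mul_left _).mul_right _
  exact h4.congr_fun key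
end Pool.Agent.H475.QL
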