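import Pool.Agent.H475.QL.Stm
import Pool.Agent.H475.QZ.P_HS
import Pool.Agent.H475.QZ.P_HR

/-!
Proof of `S_HS` for general weights (helper236).
-/

set_option autoImplicit false

namespace Pool.Agent.H475.QL

open Finset Polynomial Pool.Agent.H475.QZ

namespace P_HS

open Pool.Agent.H475.QZ.P_HS (pow_sub_ne cop inv_mem p_mem p_ne q_ne gs pi_mem)

variable {p : ℤ}

/-- the polynomial `v` -/
def v (F : ℕ) (y : ℚ) : ℚ := ((F : ℚ) + 1) - (F : ℚ) * y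

theorem v_mem (F : ℕ) {y : ℚ} (hy : y ∈ RpS p) : v F y ∈ RpS p := by
  have hF : (F : ℚ) ∈ RpS p := natCast_mem _ F
  have h1 : (1 : ℚ) ∈ RpS p := one_mem _
  unfold v
  exact sub_mem (add_mem hF h1) (mul_mem hF hy)

theorem geo (F : ℕ) (y : ℚ) : (1 - y) ^ 2 * ∑ f ∈ Icc 1 F, (f : ℚ) * y ^ f =
    y - y ^ (F + 1) * v F y := by
  induction F with
  | zero =>
    rw [Icc_eq_empty (by norm_num), sum_empty]
    simp only [v, Nat.cast_zero]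
    ring
  | succ F ih =>
    rw [sum_Icc_succ_top (by omega), mul_add, ih]
    simp only [v]
    push_cast
    ring

theorem term (hp : 2 ≤ |p|) {l : ℕ} (hl : 1 ≤ l) (F : ℕ) :
    (p : ℚ) ^ l / ((p : ℚ) ^ l - 1) ^ 2 =
      (∑ f ∈ Icc 1 F, (f : ℚ) * ((p : ℚ) ^ l) ^ f) +
        ((p : ℚ) ^ l) ^ (F + 1) * v F ((p : ℚ) ^ l) * (((p : ℚ) ^ l - 1)⁻¹) ^ 2 := by
  have h1 := geo F ((p : ℚ) ^ l)
  have h2 : (((p : ℚ) ^ l - 1)⁻¹) * ((p : ℚ) ^ l - 1) = 1 := inv_mul_cancel₀ (q_ne hp hl)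
  rw [div_eq_mul_inv, ← inv_pow]
  generalize (p : ℚ) ^ l = y at h1 h2 ⊢
  generalize (y - 1)⁻¹ = u at h2 ⊢
  generalize ∑ f ∈ Icc 1 F, (f : ℚ) * y ^ f = g at h1 ⊢
  have h3 : (u * (y - 1)) ^ 2 = 1 := by rw [h2, one_pow]
  linear_combination (-u ^ 2) * h1 + g * h3

/-- the sum for the weight `X` -/
def h1 (p : ℤ) (k : ℕ) : ℚ := ∑ l ∈ Icc 1 k, (p : ℚ) ^ l / ((p : ℚ) ^ l - 1) ^ 2

/-- the remainder -/
def Rm (p : ℤ) (F k : ℕ) : ℚ :=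
  ∑ l ∈ Icc 1 k, ((p : ℚ) ^ l) ^ (F + 1) * v F ((p : ℚ) ^ l) * (((p : ℚ) ^ l - 1)⁻¹) ^ 2

theorem h1_eq (hp : 2 ≤ |p|) (F k : ℕ) : h1 p k =
    (∑ f ∈ Icc 1 F, (f : ℚ) * ((p : ℚ) ^ f * ((p : ℚ) ^ (k * f) - 1) *
      (((p : ℚ) ^ f - 1)⁻¹))) + Rm p F k := by
  unfold h1
  have h1 : ∀ l ∈ Icc 1 k, (p : ℚ) ^ l / ((p : ℚ) ^ l - 1) ^ 2 =
      (∑ f ∈ Icc 1 F, (f : ℚ) * ((p : ℚ) ^ l) ^ f) +
        ((p : ℚ) ^ l) ^ (F + 1) * v F ((p : ℚ) ^ l) * (((p : ℚ) ^ l - 1)⁻¹) ^ 2 := by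
    intro l hl
    exact term hp (mem_Icc.1 hl).1 F
  rw [sum_congr rfl h1, sum_add_distrib, sum_comm]
  congr 1
  refine sum_congr rfl fun f hf => ?_
  rw [← mul_sum, gs hp (mem_Icc.1 hf).1]

theorem Rm_mem (hp : 2 ≤ |p|) {N k : ℕ} (hk : k < N) (d : ℕ) :
    (p : ℚ) ^ (k * d) * Rm p (N * N) k * (pik ℚ p N k)⁻¹ ∈ RpS p := by
  unfold Rm
  rw [mul_sum, sum_mul]
  refine sum_mem fun l hl => ?_
  have hl1 := (mem_Icc.1 hl).1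
  have e1 : (p : ℚ) ^ (k * d) * (((p : ℚ) ^ l) ^ (N * N + 1) * v (N * N) ((p : ℚ) ^ l) *
      (((p : ℚ) ^ l - 1)⁻¹) ^ 2) * (pik ℚ p N k)⁻¹ =
      (p : ℚ) ^ (k * d) * ((p : ℚ) ^ (l - 1)) ^ (N * N + 1) * v (N * N) ((p : ℚ) ^ l) *
      (((p : ℚ) ^ l - 1)⁻¹) ^ 2 * ((p : ℚ) ^ (N * N + 1) * (pik ℚ p N k)⁻¹) := by
    have e2 : ((p : ℚ) ^ l) ^ (N * N + 1) =
        ((p : ℚ) ^ (l - 1)) ^ (N * N + 1) * (p : ℚ) ^ (N * N + 1) := by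
      rw [← mul_pow, ← pow_succ, Nat.sub_add_cancel hl1]
    rw [e2]
    ring
  rw [e1]
  refine mul_mem (mul_mem (mul_mem (mul_mem (pow_mem p_mem _) (pow_mem (pow_mem p_mem _) _))
    (v_mem _ (pow_mem p_mem _))) (pow_mem (inv_mem hp hl1) 2)) (pi_mem hp hk (by omega))

theorem h1_mem (hp : 2 ≤ |p|) (N d : ℕ) :
    ∑ k ∈ range N, (p : ℚ) ^ (k * d) * h1 p k / pik ℚ p N k ∈ RpS p := by
  have hH : ∀ r, ∑ k ∈ range N, (p : ℚ) ^ (k * r) / pik ℚ p N k ∈ RpS p := by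
    intro r
    obtain ⟨n, hn⟩ := QZ.t_HR p hp N r
    rw [hn]
    exact int_mem_RpS p n
  have e1 : ∀ k ∈ range N, (p : ℚ) ^ (k * d) * h1 p k / pik ℚ p N k =
      (∑ f ∈ Icc 1 (N * N), (f : ℚ) * (p : ℚ) ^ f * (((p : ℚ) ^ f - 1)⁻¹) *
        ((p : ℚ) ^ (k * (d + f)) / pik ℚ p N k - (p : ℚ) ^ (k * d) / pik ℚ p N k)) +
      (p : ℚ) ^ (k * d) * Rm p (N * N) k * (pik ℚ p N k)⁻¹ := by
    intro k _
    rw [h1_eq hp (N * N) k, div_eq_mul_inv, mul_add, add_mul]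
    congr 1
    rw [mul_sum, sum_mul]
    refine sum_congr rfl fun f _ => ?_
    rw [mul_add k d f, pow_add]
    ring
  rw [sum_congr rfl e1, sum_add_distrib, sum_comm]
  refine add_mem (sum_mem fun f hf => ?_) (sum_mem fun k hk => ?_)
  · rw [← mul_sum, sum_sub_distrib]
    exact mul_mem (mul_mem (mul_mem (natCast_mem _ f) (pow_mem p_mem _))
      (inv_mem hp (mem_Icc.1 hf).1)) (sub_mem (hH _) (hH _))
  · exact Rm_mem hp (mem_range.1 hk) d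

theorem hh_split (w : Polynomial ℤ) (hw : w.coeff 0 = 0) (p : ℤ) (k : ℕ) :
    hh w p k = (w.coeff 1 : ℚ) * h1 p k + (w.coeff 2 : ℚ) * QZ.hh p k := by
  unfold hh h1 QZ.hh RR
  rw [mul_sum, mul_sum, ← sum_add_distrib]
  refine sum_congr rfl fun l _ => ?_
  rw [hw]
  push_cast
  ring

end P_HS

open P_HS in
theorem t_HS : S_HS := by
  intro w s hw p hp N d
  have e1 : ∀ k ∈ range N, (p : ℚ) ^ (k * d) * hh w p k / pik ℚ p N k =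
      (w.coeff 1 : ℚ) * ((p : ℚ) ^ (k * d) * h1 p k / pik ℚ p N k) +
      (w.coeff 2 : ℚ) * ((p : ℚ) ^ (k * d) * QZ.hh p k / pik ℚ p N k) := by
    intro k _
    rw [hh_split w hw.2.2.2.2 p k]
    ring
  rw [sum_congr rfl e1, sum_add_distrib, ← mul_sum, ← mul_sum]
  exact add_mem (mul_mem (int_mem_RpS p _) (h1_mem hp N d))
    (mul_mem (int_mem_RpS p _) (QZ.t_HS QZ.t_HR p hp N d))

end Pool.Agent.H475.QL
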