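import Pool.Agent.H475.QL.Stm
import Pool.Agent.H475.QZ.P_B1
import Pool.Agent.H475.QZ.P_INT

/-!
Integrality of the determinant.
-/

namespace Pool.Agent.H475.QL

open Finset Polynomial Pool.Agent.H475.QZ

namespace P_INT

open Pool.Agent.H475.QZ.P_INT (ZZ int_mem pow_mem' pow_sub_ne quot_mem)

theorem RR_mem {w : Polynomial ℤ} {s : ℕ} (hw : Adm w s) {p : ℤ} (hp : 2 ≤ |p|) {k l : ℕ}
    (hl : 1 ≤ l) (hk : l ≤ k) : (D p k : ℚ) ^ s * RR w ((p : ℚ) ^ l) ∈ ZZ := by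
  obtain ⟨h2, h3, hdeg, -, h0⟩ := hw
  have hq := quot_mem hp t_B1 hl hk
  have hD : (D p k : ℚ) ∈ ZZ := int_mem _
  unfold RR
  rw [h0]
  rcases (by omega : s = 2 ∨ s = 3) with rfl | rfl
  · have hc : w.coeff 2 = 0 := Polynomial.coeff_eq_zero_of_natDegree_lt hdeg
    rw [hc]
    have h1 : (D p k : ℚ) ^ 2 * (((0 : ℤ) : ℚ) / ((p : ℚ) ^ l - 1) +
        (w.coeff 1 : ℚ) * (p : ℚ) ^ l / ((p : ℚ) ^ l - 1) ^ 2 +
        ((0 : ℤ) : ℚ) * ((p : ℚ) ^ l * ((p : ℚ) ^ l + 1)) / ((p : ℚ) ^ l - 1) ^ 3) =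
        (w.coeff 1 : ℚ) * (p : ℚ) ^ l * ((D p k : ℚ) / ((p : ℚ) ^ l - 1)) ^ 2 := by
      rw [div_pow]; push_cast; ring
    rw [h1]
    exact ZZ.mul_mem (ZZ.mul_mem (int_mem _) (pow_mem' p l)) (ZZ.pow_mem hq 2)
  · have h1 : (D p k : ℚ) ^ 3 * (((0 : ℤ) : ℚ) / ((p : ℚ) ^ l - 1) +
        (w.coeff 1 : ℚ) * (p : ℚ) ^ l / ((p : ℚ) ^ l - 1) ^ 2 +
        (w.coeff 2 : ℚ) * ((p : ℚ) ^ l * ((p : ℚ) ^ l + 1)) / ((p : ℚ) ^ l - 1) ^ 3) =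
        (D p k : ℚ) * ((w.coeff 1 : ℚ) * (p : ℚ) ^ l * ((D p k : ℚ) / ((p : ℚ) ^ l - 1)) ^ 2) +
        (w.coeff 2 : ℚ) * ((p : ℚ) ^ l * ((p : ℚ) ^ l + 1)) *
          ((D p k : ℚ) / ((p : ℚ) ^ l - 1)) ^ 3 := by
      rw [div_pow, div_pow]; push_cast; ring
    rw [h1]
    refine ZZ.add_mem (ZZ.mul_mem hD (ZZ.mul_mem (ZZ.mul_mem (int_mem _) (pow_mem' p l))
      (ZZ.pow_mem hq 2))) ?_
    exact ZZ.mul_mem (ZZ.mul_mem (int_mem _) (ZZ.mul_mem (pow_mem' p l)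
      (ZZ.add_mem (pow_mem' p l) ZZ.one_mem))) (ZZ.pow_mem hq 3)

theorem hh_mem {w : Polynomial ℤ} {s : ℕ} (hw : Adm w s) {p : ℤ} (hp : 2 ≤ |p|) (k : ℕ) :
    (D p k : ℚ) ^ s * hh w p k ∈ ZZ := by
  unfold hh
  rw [Finset.mul_sum]
  refine ZZ.sum_mem fun l hl => ?_
  rw [Finset.mem_Icc] at hl
  exact RR_mem hw hp hl.1 hl.2

theorem c_mem (w : Polynomial ℤ) {p : ℤ} (hp : 2 ≤ |p|) {J e : ℕ} (he : 1 ≤ e) (hJ : e ≤ J) :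
    (D p J : ℚ) * c w p e ∈ ZZ := by
  unfold c
  have h1 : (D p J : ℚ) * (((w.eval (e : ℤ) : ℤ) : ℚ) / ((p : ℚ) ^ e - 1)) =
      ((w.eval (e : ℤ) : ℤ) : ℚ) * ((D p J : ℚ) / ((p : ℚ) ^ e - 1)) := by ring
  rw [h1]
  exact ZZ.mul_mem (int_mem _) (quot_mem hp t_B1 he hJ)

theorem entry_mem {w : Polynomial ℤ} {s : ℕ} (hw : Adm w s) {p : ℤ} (hp : 2 ≤ |p|) {z : ℚ}
    {b m : ℤ} (hz : (b : ℚ) * z = m) (k J : ℕ) :
    (b : ℚ) * (D p k : ℚ) ^ s * ((D p J : ℚ) * Az w p z k J) ∈ ZZ := by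
  have h1 : (b : ℚ) * (D p k : ℚ) ^ s * ((D p J : ℚ) * Az w p z k J) =
      (D p k : ℚ) ^ s * (D p J : ℚ) * (p : ℚ) ^ (k * J) * m -
        (b : ℚ) * (D p J : ℚ) * (p : ℚ) ^ (k * J) * ((D p k : ℚ) ^ s * hh w p k) -
        (b : ℚ) * (D p k : ℚ) ^ s *
          ∑ e ∈ Icc 1 J, (p : ℚ) ^ (k * (J - e)) * ((D p J : ℚ) * c w p e) := by
    unfold Az
    have h2 : ∑ e ∈ Icc 1 J, (p : ℚ) ^ (k * (J - e)) * ((D p J : ℚ) * c w p e) =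
        (D p J : ℚ) * ∑ e ∈ Icc 1 J, (p : ℚ) ^ (k * (J - e)) * c w p e := by
      rw [Finset.mul_sum]
      exact Finset.sum_congr rfl fun e _ => by ring
    rw [h2, ← hz]
    ring
  rw [h1]
  have hD : ∀ k, (D p k : ℚ) ∈ ZZ := fun k => int_mem _
  refine ZZ.sub_mem (ZZ.sub_mem ?_ ?_) ?_
  · exact ZZ.mul_mem (ZZ.mul_mem (ZZ.mul_mem (ZZ.pow_mem (hD k) s) (hD J)) (pow_mem' p _))
      (int_mem m)
  · exact ZZ.mul_mem (ZZ.mul_mem (ZZ.mul_mem (int_mem b) (hD J)) (pow_mem' p _))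
      (hh_mem hw hp k)
  · refine ZZ.mul_mem (ZZ.mul_mem (int_mem b) (ZZ.pow_mem (hD k) s)) (ZZ.sum_mem fun e he => ?_)
    rw [Finset.mem_Icc] at he
    exact ZZ.mul_mem (pow_mem' p _) (c_mem w hp he.1 he.2)

end P_INT

open P_INT in
theorem t_INT : S_INT := by
  intro w s hw p hp z b m hz M N
  choose Y hY using fun k J => entry_mem hw hp hz k J
  let YM : Matrix (Fin N) (Fin N) ℤ := Matrix.of fun k j => Y (k : ℕ) (M + (j : ℕ))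
  refine ⟨YM.det, ?_⟩
  have h1 : ((YM.det : ℤ) : ℚ) = (YM.map (Int.castRingHom ℚ)).det := by
    have := RingHom.map_det (Int.castRingHom ℚ) YM
    simpa using this
  have h2 : YM.map (Int.castRingHom ℚ) = Matrix.of fun (k j : Fin N) =>
      ((b : ℚ) * (D p (k : ℕ) : ℚ) ^ s) * (Matrix.of fun (k j : Fin N) =>
        (D p (M + (j : ℕ)) : ℚ) * AzM w p z M N k j) k j := by
    ext k j
    rw [Matrix.map_apply]
    exact hY (k : ℕ) (M + (j : ℕ))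
  rw [h1, h2, Matrix.det_mul_column, Matrix.det_mul_row, Finset.prod_mul_distrib]
  unfold DD
  rw [Finset.prod_const, Finset.card_univ, Fintype.card_fin]
  push_cast
  rw [Finset.prod_range, Finset.prod_range]
  ring

end Pool.Agent.H475.QL
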