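import Pool.Agent.H475.QL.Stm
import Pool.Agent.H475.QZ.P_NU
import Pool.Agent.H475.QZ.P_NUX
import Pool.Agent.H475.QZ.P_NUQ
import Pool.Agent.H475.QZ.P_NUE

/-! Task QL KB (helper230), after QZ KB (helper657). -/

namespace Pool.Agent.H475.QL

open Finset Polynomial Pool.Agent.H475.QZ

namespace P_KB

theorem nuF (hNU : QZ.S_NU) (hNUX : QZ.S_NUX) (hNUE : QZ.S_NUE) {p : ℤ} (hp : 2 ≤ |p|)
    {s a c t : ℕ} (hs : s ≤ 3) (ha : a < t) (hc : c ≤ 2) :
    nu (Polynomial.aeval (XX p t) (FF s p a c)) ≤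
      13 ^ 3 * (7 / 2) ^ 2 * ea p a ^ s * |xx p (a + 1)| ^ c := by
  obtain ⟨n0, n1, nm, n2, np, npow, nC⟩ := hNU
  have e0 : (0 : ℝ) ≤ ea p a := by unfold ea; positivity
  have hF : Polynomial.aeval (XX p t) (FF s p a c) =
      (Polynomial.aeval (XX p t) (EE p a)) ^ s *
        (XX p t - PowerSeries.C (xx p (a + 1))) ^ c := by
    unfold FF
    rw [map_mul, map_pow, map_pow, map_sub, Polynomial.aeval_X, Polynomial.aeval_C]
    rfl
  have h1 : nu ((Polynomial.aeval (XX p t) (EE p a)) ^ s) ≤ (13 * ea p a) ^ s :=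
    (npow _ s).trans (pow_le_pow_left₀ (n0 _) (hNUE p hp a t ha) s)
  have h2 : nu (XX p t - PowerSeries.C (xx p (a + 1))) ≤ |xx p (a + 1)| * (7 / 2) := by
    refine ((hNUX p hp).1 (a + 1) t (by omega)).trans ?_
    refine mul_le_mul_of_nonneg_left ?_ (abs_nonneg _)
    have : ((1 : ℝ) / 2) ^ (t - (a + 1)) ≤ 1 := pow_le_one₀ (by norm_num) (by norm_num)
    linarith
  have h3 : nu ((XX p t - PowerSeries.C (xx p (a + 1))) ^ c) ≤
      (|xx p (a + 1)| * (7 / 2)) ^ c :=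
    (npow _ c).trans (pow_le_pow_left₀ (n0 _) h2 c)
  have h4 : ((7 : ℝ) / 2) ^ c ≤ (7 / 2) ^ 2 := pow_le_pow_right₀ (by norm_num) hc
  have h5 : (13 : ℝ) ^ s ≤ 13 ^ 3 := pow_le_pow_right₀ (by norm_num) hs
  rw [hF]
  calc nu ((Polynomial.aeval (XX p t) (EE p a)) ^ s *
        (XX p t - PowerSeries.C (xx p (a + 1))) ^ c)
      ≤ nu ((Polynomial.aeval (XX p t) (EE p a)) ^ s) *
        nu ((XX p t - PowerSeries.C (xx p (a + 1))) ^ c) := nm _ _
    _ ≤ (13 * ea p a) ^ s * (|xx p (a + 1)| * (7 / 2)) ^ c :=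
        mul_le_mul h1 h3 (n0 _) (by positivity)
    _ = ea p a ^ s * |xx p (a + 1)| ^ c * (13 ^ s * (7 / 2) ^ c) := by
        rw [mul_pow, mul_pow]; ring
    _ ≤ ea p a ^ s * |xx p (a + 1)| ^ c * (13 ^ 3 * (7 / 2) ^ 2) :=
        mul_le_mul_of_nonneg_left (mul_le_mul h5 h4 (by positivity) (by positivity))
          (by positivity)
    _ = _ := by ring

theorem coeff_le_nu (f : PowerSeries ℝ) (j : ℕ) (hj : j ∈ range 3) :
    |PowerSeries.coeff j f| ≤ nu f := by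
  have h0 := abs_nonneg (PowerSeries.coeff 0 f)
  have h1 := abs_nonneg (PowerSeries.coeff 1 f)
  have h2 := abs_nonneg (PowerSeries.coeff 2 f)
  have hj' : j < 3 := mem_range.1 hj
  unfold nu
  interval_cases j <;> linarith

theorem fact_le (j : ℕ) (hj : j ∈ range 3) : (j.factorial : ℝ) ≤ 2 := by
  have hj' : j < 3 := mem_range.1 hj
  interval_cases j <;> norm_num [Nat.factorial]

theorem sum_le (w : Polynomial ℤ) (f : PowerSeries ℝ) :
    |∑ j ∈ range 3, (w.coeff j : ℝ) * (j.factorial : ℝ) * PowerSeries.coeff j f| ≤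
      (2 * ∑ j ∈ range 3, |(w.coeff j : ℝ)|) * nu f := by
  refine (abs_sum_le_sum_abs _ _).trans ?_
  rw [mul_sum, sum_mul]
  refine sum_le_sum fun j hj => ?_
  rw [abs_mul, abs_mul, Nat.abs_cast]
  have h1 := coeff_le_nu f j hj
  have h2 := fact_le j hj
  have h3 : |(w.coeff j : ℝ)| * (j.factorial : ℝ) ≤ |(w.coeff j : ℝ)| * 2 :=
    mul_le_mul_of_nonneg_left h2 (abs_nonneg _)
  calc |(w.coeff j : ℝ)| * (j.factorial : ℝ) * |PowerSeries.coeff j f|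
      ≤ |(w.coeff j : ℝ)| * 2 * nu f :=
        mul_le_mul h3 h1 (abs_nonneg _) (by positivity)
    _ = 2 * |(w.coeff j : ℝ)| * nu f := by ring

end P_KB

theorem t_KB : S_KB := by
  intro w s hw p hp M N t a a' c c' ha ha' hc hc'
  have hs : s ≤ 3 := hw.2.1
  have hNU : QZ.S_NU := QZ.t_NU
  have hNUX : QZ.S_NUX := QZ.t_NUX hNU
  have hNUQ : QZ.S_NUQ := QZ.t_NUQ hNU
  have hNUE : QZ.S_NUE := QZ.t_NUE hNU hNUX
  have hNU' := hNU
  obtain ⟨n0, n1, nm, n2, np, npow, nC⟩ := hNU'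
  have e0 : (0 : ℝ) ≤ ea p a := by unfold ea; positivity
  have e0' : (0 : ℝ) ≤ ea p a' := by unfold ea; positivity
  have w0 : (0 : ℝ) ≤ ww p N := by unfold ww; positivity
  have f1 := P_KB.nuF hNU hNUX hNUE hp hs ha hc
  have f2 := P_KB.nuF hNU hNUX hNUE hp hs ha' hc'
  have x1 : nu (XX p t ^ (M + 1)) ≤ |xx p t| ^ (M + 1) * ((M : ℝ) + 2) ^ 2 := by
    have := (hNUX p hp).2 t (M + 1)
    have e : ((M + 1 : ℕ) : ℝ) + 1 = (M : ℝ) + 2 := by push_cast; ring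
    rwa [e] at this
  have q1 := hNUQ p hp N t (by omega)
  unfold kap
  have hmain : nu (XX p t ^ (M + 1) * Polynomial.aeval (XX p t) (FF s p a c * FF s p a' c') *
      (QQ p N t)⁻¹) ≤ (|xx p t| ^ (M + 1) * ((M : ℝ) + 2) ^ 2) *
        ((13 ^ 3 * (7 / 2) ^ 2 * ea p a ^ s * |xx p (a + 1)| ^ c) *
        (13 ^ 3 * (7 / 2) ^ 2 * ea p a' ^ s * |xx p (a' + 1)| ^ c')) * (3 ^ 12 * ww p N) := by
    rw [map_mul]
    refine (nm _ _).trans (mul_le_mul ?_ q1 (n0 _) (by positivity))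
    refine (nm _ _).trans (mul_le_mul x1 ?_ (n0 _) (by positivity))
    exact (nm _ _).trans (mul_le_mul f1 f2 (n0 _) (by positivity))
  refine (P_KB.sum_le w _).trans ?_
  have hW : (0 : ℝ) ≤ 2 * ∑ j ∈ range 3, |(w.coeff j : ℝ)| :=
    mul_nonneg (by norm_num) (sum_nonneg fun _ _ => abs_nonneg _)
  refine (mul_le_mul_of_nonneg_left hmain hW).trans (le_of_eq ?_)
  unfold Cw
  ring

end Pool.Agent.H475.QL
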