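import Pool.Agent.H475.QL.Stm
import Pool.Agent.H475.QZ.P_MAIN

/-!
# QL, task MAIN: the main term (written by helper551)
-/

set_option autoImplicit false

namespace Pool.Agent.H475.QL

open Finset Polynomial Pool.Agent.H475.QZ

namespace P_MAIN

theorem coeff_pow_self (A f : PowerSeries ℝ) (hf : PowerSeries.constantCoeff f = 0) (n : ℕ) :
    PowerSeries.coeff n (A * f ^ n) =
      PowerSeries.constantCoeff A * (PowerSeries.coeff 1 f) ^ n := by
  obtain ⟨h, rfl⟩ := PowerSeries.X_dvd_iff.2 hf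
  have h1 : A * (PowerSeries.X * h) ^ n = PowerSeries.X ^ n * (A * h ^ n) := by
    rw [mul_pow]
    ring
  rw [h1, PowerSeries.coeff_X_pow_mul']
  rw [if_pos le_rfl, Nat.sub_self, PowerSeries.coeff_zero_eq_constantCoeff_apply, map_mul, map_pow,
    PowerSeries.coeff_succ_X_mul, PowerSeries.coeff_zero_eq_constantCoeff_apply]

theorem coeff_pow_lt (A f : PowerSeries ℝ) (hf : PowerSeries.constantCoeff f = 0) {j n : ℕ}
    (hj : j < n) : PowerSeries.coeff j (A * f ^ n) = 0 := by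
  obtain ⟨h, rfl⟩ := PowerSeries.X_dvd_iff.2 hf
  have h1 : A * (PowerSeries.X * h) ^ n = PowerSeries.X ^ n * (A * h ^ n) := by
    rw [mul_pow]
    ring
  rw [h1, PowerSeries.coeff_X_pow_mul']
  rw [if_neg (by omega)]

/-- the value of `κ` in terms of the constant coefficient -/
theorem kap_A (w : Polynomial ℤ) (s : ℕ) (hw : Adm w s) (p : ℤ) (M N t : ℕ) (F : Polynomial ℝ)
    (A f : PowerSeries ℝ) (hf : PowerSeries.constantCoeff f = 0)
    (h : XX p t ^ (M + 1) * Polynomial.aeval (XX p t) F * (QQ p N t)⁻¹ = A * f ^ (s - 1)) :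
    kap w p M N t F = (w.coeff (s - 1) : ℝ) * ((s - 1).factorial : ℝ) *
      (PowerSeries.constantCoeff A * (PowerSeries.coeff 1 f) ^ (s - 1)) := by
  obtain ⟨hs2, hs3, hdeg, hlead, h0⟩ := hw
  unfold kap
  rw [h, ← coeff_pow_self A f hf (s - 1)]
  have hz : ∀ j, s ≤ j → (w.coeff j : ℝ) = 0 := fun j hj => by
    have : w.coeff j = 0 := Polynomial.coeff_eq_zero_of_natDegree_lt (by omega)
    rw [this]
    simp
  refine Finset.sum_eq_single (s - 1) ?_ ?_
  · intro j hj hne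
    rw [mem_range] at hj
    rcases lt_or_gt_of_ne hne with h1 | h1
    · rw [coeff_pow_lt A f hf h1, mul_zero]
    · rw [hz j (by omega), zero_mul, zero_mul]
  · intro hn
    exfalso
    apply hn
    rw [mem_range]
    omega

theorem kap_eq (w : Polynomial ℤ) (s : ℕ) (hw : Adm w s) (p : ℤ) (M N a c : ℕ) (hc : c < s) :
    kap w p M N (a + 1) (FF s p a c * FF s p a (s - 1 - c)) =
      (w.coeff (s - 1) : ℝ) * ((s - 1).factorial : ℝ) *
      (xx p (a + 1) ^ (M + 1) * (∏ s ∈ Icc 1 a, (xx p (a + 1) - xx p s)) ^ (2 * s) *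
        (∏ k ∈ range N, ((p : ℝ) ^ k - xx p (a + 1)))⁻¹ * xx p (a + 1) ^ (s - 1)) := by
  have h1 : FF s p a c * FF s p a (s - 1 - c) =
      EE p a ^ (2 * s) * (Polynomial.X - Polynomial.C (xx p (a + 1))) ^ (s - 1) := by
    unfold FF
    have h2 : (Polynomial.X - Polynomial.C (xx p (a + 1)) : Polynomial ℝ) ^ (s - 1) =
        (Polynomial.X - Polynomial.C (xx p (a + 1))) ^ c *
          (Polynomial.X - Polynomial.C (xx p (a + 1))) ^ (s - 1 - c) := by
      rw [← pow_add]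
      congr 1
      omega
    rw [h2, two_mul, pow_add]
    ring
  have h3 : XX p (a + 1) ^ (M + 1) *
      (Polynomial.aeval (XX p (a + 1))) (FF s p a c * FF s p a (s - 1 - c)) *
        (QQ p N (a + 1))⁻¹ =
      (XX p (a + 1) ^ (M + 1) * (Polynomial.aeval (XX p (a + 1)) (EE p a)) ^ (2 * s) *
        (QQ p N (a + 1))⁻¹) * (XX p (a + 1) - PowerSeries.C (xx p (a + 1))) ^ (s - 1) := by
    rw [h1, map_mul, map_pow, map_pow, map_sub, Polynomial.aeval_X, Polynomial.aeval_C]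
    have h4 : (algebraMap ℝ (PowerSeries ℝ)) (xx p (a + 1)) = PowerSeries.C (xx p (a + 1)) := rfl
    rw [h4]
    ring
  have hf : PowerSeries.constantCoeff (XX p (a + 1) - PowerSeries.C (xx p (a + 1))) = 0 := by
    rw [map_sub, QZ.P_MAIN.const_XX, PowerSeries.constantCoeff_C, sub_self]
  rw [kap_A w s hw p M N (a + 1) _ _ _ hf h3]
  congr 1
  rw [map_mul, map_mul, map_pow, map_pow, QZ.P_MAIN.const_XX, QZ.P_MAIN.const_aeval_EE,
    PowerSeries.constantCoeff_inv, QZ.P_MAIN.const_QQ, map_sub, QZ.P_MAIN.coeff1_XX,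
    PowerSeries.coeff_C]
  simp

end P_MAIN

open P_MAIN in
theorem t_MAIN : S_MAIN := by
  intro w s hw p hp M N a c hc
  rw [kap_eq w s hw p M N a c hc]
  obtain ⟨hs2, hs3, hdeg, hlead, h0⟩ := hw
  have hp2 := QZ.P_MAIN.abs_p_ge hp
  have hp0 : (0 : ℝ) < |(p : ℝ)| := by linarith
  rw [abs_mul, abs_mul, abs_mul, abs_mul, abs_mul, abs_pow, abs_pow, abs_inv, abs_pow,
    Finset.abs_prod, Finset.abs_prod]
  set x := |xx p (a + 1)| with hx
  set P := ∏ s ∈ Icc 1 a, |xx p (a + 1) - xx p s| with hP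
  set Q := ∏ k ∈ range N, |(p : ℝ) ^ k - xx p (a + 1)| with hQ
  have hE : ea p a / 4 ≤ P := QZ.P_MAIN.low_E hp a
  have hQ1 : Q ≤ 4 * (ww p N)⁻¹ := QZ.P_MAIN.up_Q hp N a
  have hQ0 : 0 < Q := QZ.P_MAIN.pos_Q hp N a
  have he0 : 0 ≤ ea p a := by unfold ea; positivity
  have hw0 : 0 < ww p N := by unfold ww; positivity
  have hx0 : 0 ≤ x := abs_nonneg _
  have h2 : ww p N / 4 ≤ Q⁻¹ := by
    have h3 : (4 * (ww p N)⁻¹)⁻¹ ≤ Q⁻¹ := inv_anti₀ hQ0 hQ1
    have h4 : (4 * (ww p N)⁻¹)⁻¹ = ww p N / 4 := by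
      rw [mul_inv, inv_inv]; ring
    rwa [h4] at h3
  have h5 : (ea p a / 4) ^ (2 * s) ≤ P ^ (2 * s) := pow_le_pow_left₀ (by positivity) hE (2 * s)
  have h6 : (ea p a / 4) ^ (2 * s) * (ww p N / 4) ≤ P ^ (2 * s) * Q⁻¹ :=
    mul_le_mul h5 h2 (by positivity) (by positivity)
  have h7 : (1 : ℝ) ≤ |(w.coeff (s - 1) : ℝ)| * |((s - 1).factorial : ℝ)| := by
    have e1 : (1 : ℝ) ≤ |(w.coeff (s - 1) : ℝ)| := by
      have : (1 : ℤ) ≤ |w.coeff (s - 1)| := Int.one_le_abs hlead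
      exact_mod_cast this
    have e2 : (1 : ℝ) ≤ |((s - 1).factorial : ℝ)| := by
      rw [Nat.abs_cast]
      exact_mod_cast Nat.succ_le_of_lt (Nat.factorial_pos _)
    nlinarith
  have h8 : (1 / 2 : ℝ) ^ 14 ≤ (1 / 4) ^ (2 * s) * (1 / 4) := by
    have e1 : (1 / 4 : ℝ) ^ 6 ≤ (1 / 4) ^ (2 * s) :=
      pow_le_pow_of_le_one (by norm_num) (by norm_num) (by omega)
    have e2 : (1 / 2 : ℝ) ^ 14 = (1 / 4) ^ 6 * (1 / 4) := by norm_num
    rw [e2]
    exact mul_le_mul_of_nonneg_right e1 (by norm_num)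
  have hms : M + s = M + 1 + (s - 1) := by omega
  have h9 : 0 ≤ x ^ (M + 1) * P ^ (2 * s) * Q⁻¹ * x ^ (s - 1) := by
    have hP0 : 0 ≤ P := Finset.prod_nonneg fun _ _ => abs_nonneg _
    positivity
  calc (1 / 2) ^ 14 * x ^ (M + s) * ea p a ^ (2 * s) * ww p N =
        (1 / 2) ^ 14 * (x ^ (M + s) * ea p a ^ (2 * s) * ww p N) := by ring
    _ ≤ ((1 / 4) ^ (2 * s) * (1 / 4)) * (x ^ (M + s) * ea p a ^ (2 * s) * ww p N) :=
        mul_le_mul_of_nonneg_right h8 (by positivity)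
    _ = x ^ (M + s) * ((ea p a / 4) ^ (2 * s) * (ww p N / 4)) := by
        rw [div_pow, div_pow]
        ring
    _ ≤ x ^ (M + s) * (P ^ (2 * s) * Q⁻¹) := mul_le_mul_of_nonneg_left h6 (by positivity)
    _ = 1 * (x ^ (M + 1) * P ^ (2 * s) * Q⁻¹ * x ^ (s - 1)) := by
        rw [hms, pow_add]
        ring
    _ ≤ _ := mul_le_mul_of_nonneg_right h7 h9

end Pool.Agent.H475.QL
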