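import Pool.Agent.H475.QL.Stm
import Pool.Agent.H475.QZ.P_PAR
import Pool.Agent.H475.QZ.P_DET

/-!
# Nonvanishing (project QL of helper475, adapted from `QZ/P_NZ.lean`)
-/

set_option autoImplicit false

namespace Pool.Agent.H475.QL

open Finset Polynomial Pool.Agent.H475.QZ

namespace P_NZ

theorem abs_cast {p : ℤ} (hp : 2 ≤ |p|) : (2 : ℝ) ≤ |(p : ℝ)| := by
  exact_mod_cast hp

/-- `|x_t| = Q^t`. -/
theorem abs_xx (p : ℤ) (t : ℕ) : |xx p t| = (|(p : ℝ)|⁻¹) ^ t := by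
  unfold xx
  rw [abs_inv, abs_pow, inv_pow]

theorem Q_pos {p : ℤ} (hp : 2 ≤ |p|) : 0 < |(p : ℝ)|⁻¹ :=
  inv_pos.2 (lt_of_lt_of_le two_pos (abs_cast hp))

theorem Q_le {p : ℤ} (hp : 2 ≤ |p|) : |(p : ℝ)|⁻¹ ≤ 1 / 2 := by
  rw [one_div]
  exact inv_anti₀ two_pos (abs_cast hp)

theorem ea_pos {p : ℤ} (hp : 2 ≤ |p|) (a : ℕ) : 0 < ea p a :=
  inv_pos.2 (pow_pos (lt_of_lt_of_le two_pos (abs_cast hp)) _)

theorem ww_pos {p : ℤ} (hp : 2 ≤ |p|) (N : ℕ) : 0 < ww p N :=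
  inv_pos.2 (pow_pos (lt_of_lt_of_le two_pos (abs_cast hp)) _)

theorem Cw_pos {w : Polynomial ℤ} {s : ℕ} (hw : Adm w s) : 0 < Cw w := by
  obtain ⟨h2, h3, _, hne, _⟩ := hw
  unfold Cw
  have h1 : 0 < ∑ j ∈ range 3, |(w.coeff j : ℝ)| := by
    refine sum_pos' (fun j _ => abs_nonneg _) ⟨s - 1, mem_range.2 (by omega), ?_⟩
    rw [abs_pos]
    exact_mod_cast hne
  positivity

/-- The Vandermonde product does not vanish. -/
theorem VV_ne {p : ℤ} (hp : 2 ≤ |p|) (N : ℕ) : VV ℝ p N ≠ 0 := by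
  unfold VV
  refine prod_ne_zero_iff.2 fun l _ => prod_ne_zero_iff.2 fun i hi => ?_
  intro h
  have h1 : (p : ℝ) ^ l = (p : ℝ) ^ i := sub_eq_zero.1 h
  have h2 : |(p : ℝ)| ^ l = |(p : ℝ)| ^ i := by rw [← abs_pow, h1, abs_pow]
  have h3 : |(p : ℝ)| ^ i < |(p : ℝ)| ^ l :=
    pow_lt_pow_right₀ (lt_of_lt_of_le one_lt_two (abs_cast hp)) (mem_range.1 hi)
  exact absurd h2 h3.ne'

theorem dm {s c : ℕ} (hc : c < s) (a : ℕ) : (s * a + c) / s = a ∧ (s * a + c) % s = c :=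
  (Nat.div_mod_unique (by omega)).2 ⟨by omega, hc⟩

theorem lt_of {s K a : ℕ} (hs : 0 < s) (h : a < K) : s * a + (s - 1) < s * K := by
  have h1 : s * (a + 1) ≤ s * K := Nat.mul_le_mul_left s h
  rw [Nat.mul_add, Nat.mul_one] at h1
  omega

theorem div_lt' {s K : ℕ} (j : Fin (s * K)) : (j : ℕ) / s < K :=
  Nat.div_lt_of_lt_mul j.2

theorem s_pos {s K : ℕ} (j : Fin (s * K)) : 0 < s := by
  refine Nat.pos_of_ne_zero fun h => ?_
  have h1 : 0 < s * K := lt_of_le_of_lt (Nat.zero_le _) j.2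
  simp only [h, Nat.zero_mul] at h1
  exact Nat.not_lt_zero _ h1

/-- The column `s a + c` goes to the column `s a + (s - 1 - c)`. -/
def fl (s K : ℕ) (j : Fin (s * K)) : Fin (s * K) :=
  ⟨s * ((j : ℕ) / s) + (s - 1 - (j : ℕ) % s), by
    have := lt_of (s_pos j) (div_lt' j)
    omega⟩

theorem fl_dm (s K : ℕ) (j : Fin (s * K)) :
    ((fl s K j : Fin (s * K)) : ℕ) / s = (j : ℕ) / s ∧
    ((fl s K j : Fin (s * K)) : ℕ) % s = s - 1 - (j : ℕ) % s := by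
  have h0 := s_pos j
  exact dm (c := s - 1 - (j : ℕ) % s) (by omega) ((j : ℕ) / s)

theorem fl_fl (s K : ℕ) (j : Fin (s * K)) : fl s K (fl s K j) = j := by
  apply Fin.ext
  have h1 := fl_dm s K (fl s K j)
  have h2 := fl_dm s K j
  have h3 := Nat.div_add_mod ((fl s K (fl s K j) : Fin (s * K)) : ℕ) s
  have h4 := Nat.div_add_mod (j : ℕ) s
  have h5 := Nat.mod_lt (j : ℕ) (s_pos j)
  rw [h1.1, h1.2, h2.1, h2.2] at h3
  omega

def flp (s K : ℕ) : Equiv.Perm (Fin (s * K)) where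
  toFun := fl s K
  invFun := fl s K
  left_inv := fl_fl s K
  right_inv := fl_fl s K

/-- The matrix in the determinant identity. -/
theorem det_A {p : ℤ} (hp : 2 ≤ |p|) (hDEG : S_DEG) (w : Polynomial ℤ) (s M K : ℕ)
    (h : (Matrix.of fun i j : Fin (s * K) =>
      LL w p M (s * K) (FF s p ((i : ℕ) / s) ((i : ℕ) % s))
        (FF s p ((j : ℕ) / s) (s - 1 - (j : ℕ) % s))).det ≠ 0) :
    (A w p M (s * K)).det ≠ 0 := by
  set L : Matrix (Fin (s * K)) (Fin (s * K)) ℝ := Matrix.of fun i j : Fin (s * K) =>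
      LL w p M (s * K) (FF s p ((i : ℕ) / s) ((i : ℕ) % s))
        (FF s p ((j : ℕ) / s) ((j : ℕ) % s)) with hL
  have hT : (Matrix.of fun i j : Fin (s * K) =>
      LL w p M (s * K) (FF s p ((i : ℕ) / s) ((i : ℕ) % s))
        (FF s p ((j : ℕ) / s) (s - 1 - (j : ℕ) % s))) = L.submatrix id (flp s K) := by
    ext i j
    rw [Matrix.submatrix_apply, hL, Matrix.of_apply, Matrix.of_apply]
    have h1 : ((flp s K j : Fin (s * K)) : ℕ) / s = (j : ℕ) / s := (fl_dm s K j).1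
    have h2 : ((flp s K j : Fin (s * K)) : ℕ) % s = s - 1 - (j : ℕ) % s := (fl_dm s K j).2
    rw [h1, h2, id]
  rw [hT, Matrix.det_permute'] at h
  have hLd : L.det ≠ 0 := right_ne_zero_of_mul h
  have hd : ∀ i : Fin (s * K), (FF s p ((i : ℕ) / s) ((i : ℕ) % s)).Monic ∧
      (FF s p ((i : ℕ) / s) ((i : ℕ) % s)).natDegree = i := fun i =>
    ⟨(hDEG.1 s p _ _).1, by rw [(hDEG.1 s p _ _).2]; exact Nat.div_add_mod _ _⟩
  have h1 := t_DET ℝ p hp (s * K) (A w p M (s * K))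
    (fun i : Fin (s * K) => FF s p ((i : ℕ) / s) ((i : ℕ) % s))
    (fun i : Fin (s * K) => FF s p ((i : ℕ) / s) ((i : ℕ) % s)) hd hd
  have h2 : (Matrix.of fun i j : Fin (s * K) => ∑ k : Fin (s * K), ∑ l : Fin (s * K),
      (FF s p ((i : ℕ) / s) ((i : ℕ) % s)).eval ((p : ℝ) ^ (k : ℕ)) / pik ℝ p (s * K) k *
        (A w p M (s * K)) k l * (FF s p ((j : ℕ) / s) ((j : ℕ) % s)).coeff l) = L := by
    ext i j
    rw [hL, Matrix.of_apply, Matrix.of_apply]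
    unfold LL
    rw [Finset.sum_range]
    refine Finset.sum_congr rfl fun k _ => ?_
    rw [Finset.sum_range]
    rfl
  rw [h2] at h1
  intro h3
  rw [h3, abs_zero] at h1
  exact mul_ne_zero (abs_ne_zero.2 (VV_ne hp _)) (abs_ne_zero.2 hLd) h1.symm

end P_NZ

open P_NZ

/-- **Nonvanishing.** -/
theorem t_NZ (hNZ1 : S_NZ1) (hNZ2 : S_NZ2) (hDEG : S_DEG) : S_NZ := by
  intro w s hw p hp
  obtain ⟨m, Λ, hm, hΛ, hpar⟩ := t_PAR (Cw w) ((1 / 2) ^ 14) (Cw_pos hw) (by positivity)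
  refine ⟨2 * m - 1, fun K => det_A hp hDEG w s (2 * m - 1) K ?_⟩
  have hs1 : 1 ≤ s := le_trans (by norm_num) hw.1
  have hs3 : s ≤ 3 := hw.2.1
  set Q : ℝ := |(p : ℝ)|⁻¹ with hQ
  have hQ0 : 0 < Q := Q_pos hp
  have hQ2 : Q ≤ 1 / 2 := Q_le hp
  have hM1 : 2 * m - 1 + 1 = 2 * m := by omega
  have hM3 : 2 * m - 1 + s = 2 * m + (s - 1) := by omega
  have hMc : ((2 * m - 1 : ℕ) : ℝ) + 2 = 2 * (m : ℝ) + 1 := by
    rw [Nat.cast_sub (by omega)]
    push_cast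
    ring
  obtain ⟨hA, hB, hC⟩ := hNZ1 w s hw p hp (2 * m - 1) (s * K)
  have hww := ww_pos hp (s * K)
  set B : ℝ := 2 * Cw w * (2 * (m : ℝ) + 1) ^ 2 with hBdef
  have hB0 : 0 ≤ B := by
    have := Cw_pos hw
    positivity
  have hr0 : 0 < Q ^ m := pow_pos hQ0 m
  have hr1 : Q ^ m ≤ (1 / 2) ^ m := pow_le_pow_left₀ hQ0.le hQ2 m
  have hr2 : Q ^ m ≤ 1 / 2 := by
    refine hr1.trans ?_
    calc (1 / 2 : ℝ) ^ m ≤ (1 / 2) ^ 1 := pow_le_pow_of_le_one (by norm_num) (by norm_num) hm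
      _ = 1 / 2 := pow_one _
  have hlt : ∀ i : Fin (s * K), s * ((i : ℕ) / s) + (s - 1) < s * K := fun i =>
    lt_of hs1 (div_lt' i)
  have hle : ∀ i : Fin (s * K), (i : ℕ) % s < s := fun i => Nat.mod_lt _ hs1
  have hlt' : ∀ i : Fin (s * K), s * ((i : ℕ) / s) + (i : ℕ) % s < s * K := fun i => by
    rw [Nat.div_add_mod]
    exact i.2
  refine hNZ2 s K hs1 hs3 _ (fun a c => (Q ^ (a + 1)) ^ m * ea p a ^ s * (Q ^ (a + 1)) ^ c)
    (fun a c => ww p (s * K) * (Q ^ (a + 1)) ^ m * ea p a ^ s * (Q ^ (a + 1)) ^ (s - 1 - c))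
    B (Q ^ m) ((1 / 2) ^ 14) Λ ?_ ?_ hB0 hr0 hr2 hΛ ?_ ?_ ?_ ?_
  · intro a c
    have := ea_pos hp a
    positivity
  · intro a c
    have := ea_pos hp a
    positivity
  · intro i j
    have h1 := hA ((i : ℕ) / s) ((j : ℕ) / s) ((i : ℕ) % s) ((j : ℕ) % s) (hle i) (hle j)
      (hlt' i) (hlt j)
    rw [Matrix.of_apply]
    refine h1.trans (le_of_eq ?_)
    rw [abs_xx, abs_xx, abs_xx, ← hQ, hM1, hMc, hBdef]
    set a := (i : ℕ) / s
    set a' := (j : ℕ) / s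
    have h2 : (Q ^ (max a a' + 1)) ^ (2 * m) =
        (Q ^ m) ^ ((a : ℤ) - (a' : ℤ)).natAbs * (Q ^ (a + 1)) ^ m * (Q ^ (a' + 1)) ^ m := by
      rw [← pow_mul, ← pow_mul, ← pow_mul, ← pow_mul, ← pow_add, ← pow_add]
      congr 1
      rcases le_total a a' with h | h
      · rw [max_eq_right h]
        obtain ⟨d, hd⟩ := Nat.exists_eq_add_of_le h
        have h3 : ((a : ℤ) - (a' : ℤ)).natAbs = d := by omega
        rw [h3, hd]
        ring
      · rw [max_eq_left h]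
        obtain ⟨d, hd⟩ := Nat.exists_eq_add_of_le h
        have h3 : ((a : ℤ) - (a' : ℤ)).natAbs = d := by omega
        rw [h3, hd]
        ring
    rw [h2]
    ring
  · intro i j hij hc
    have h1 := hB ((i : ℕ) / s) ((i : ℕ) % s) ((j : ℕ) % s) (hle i) hc (hlt i)
    rw [Matrix.of_apply, ← hij]
    refine h1.trans (le_of_eq ?_)
    rw [abs_xx, abs_xx, ← hQ, hM1, hMc, hBdef]
    set a := (i : ℕ) / s
    have h2 : (Q ^ (a + 2)) ^ (2 * m) =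
        (Q ^ m) ^ 2 * (Q ^ (a + 1)) ^ m * (Q ^ (a + 1)) ^ m := by
      rw [← pow_mul, ← pow_mul, ← pow_mul, ← pow_add, ← pow_add]
      congr 1
      ring
    have h3 : ea p a ^ (2 * s) = ea p a ^ s * ea p a ^ s := by
      rw [← pow_add]
      congr 1
      ring
    rw [h2, h3, pow_add]
    ring
  · intro i
    have h1 := hC ((i : ℕ) / s) ((i : ℕ) % s) (hle i) (hlt i)
    rw [Matrix.of_apply]
    refine le_trans (le_of_eq ?_) h1
    rw [abs_xx, abs_xx, ← hQ, hM1, hM3, hMc, hBdef]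
    set a := (i : ℕ) / s
    have h2 : (Q ^ (a + 2)) ^ (2 * m) =
        (Q ^ m) ^ 2 * (Q ^ (a + 1)) ^ m * (Q ^ (a + 1)) ^ m := by
      rw [← pow_mul, ← pow_mul, ← pow_mul, ← pow_add, ← pow_add]
      congr 1
      ring
    have h3 : (Q ^ (a + 1)) ^ (2 * m + (s - 1)) =
        (Q ^ (a + 1)) ^ m * (Q ^ (a + 1)) ^ m * (Q ^ (a + 1)) ^ (s - 1) := by
      rw [← pow_add, ← pow_add]
      congr 1
      ring
    have h4 : (Q ^ (a + 1)) ^ ((i : ℕ) % s) * (Q ^ (a + 1)) ^ (s - 1 - (i : ℕ) % s) =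
        (Q ^ (a + 1)) ^ (s - 1) := by
      rw [← pow_add]
      congr 1
      have := hle i
      omega
    have h5 : ea p a ^ (2 * s) = ea p a ^ s * ea p a ^ s := by
      rw [← pow_add]
      congr 1
      ring
    rw [h2, h3, ← h4, h5]
    ring
  · exact hpar (Q ^ m) hr0 hr1

end Pool.Agent.H475.QL
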