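import Pool.Agent.H475.QL.Stm

/-!
Fine bounds for the entries: proof of `S_NZ1` (weights `w`, blocks of size `s`).
-/

namespace Pool.Agent.H475.QL

open Finset Polynomial Pool.Agent.H475.QZ

namespace P_NZ1

theorem sum_bd {f : ℕ → ℝ} {L X : ℝ} (k : ℕ) (hf : HasSum f L) (h0 : ∀ t < k, f t = 0)
    (hb : ∀ n, |f (n + k)| ≤ X * (1 / 2) ^ n) : |L| ≤ 2 * X := by
  have h1 : HasSum (fun n => f (n + k)) (L - ∑ i ∈ range k, f i) := (hasSum_nat_add_iff' k).2 hf
  rw [Finset.sum_eq_zero (fun i hi => h0 i (Finset.mem_range.1 hi)), sub_zero] at h1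
  have h2 : HasSum (fun n : ℕ => X * (1 / 2 : ℝ) ^ n) (X * 2) := hasSum_geometric_two.mul_left X
  have h3 := tsum_of_norm_bounded h2 (fun n => by rw [Real.norm_eq_abs]; exact hb n)
  rw [h1.tsum_eq, Real.norm_eq_abs] at h3
  linarith

theorem ea_nonneg (p : ℤ) (a : ℕ) : 0 ≤ ea p a := by
  unfold ea; positivity

theorem ww_nonneg (p : ℤ) (N : ℕ) : 0 ≤ ww p N := by
  unfold ww; positivity

theorem Cw_nonneg (w : Polynomial ℤ) : 0 ≤ Cw w := by
  unfold Cw
  have : 0 ≤ ∑ j ∈ range 3, |(w.coeff j : ℝ)| := Finset.sum_nonneg fun j _ => abs_nonneg _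
  positivity

theorem xx_pow {p : ℤ} (hp : 2 ≤ |p|) (k n M : ℕ) :
    |xx p (n + k)| ^ (M + 1) ≤ |xx p k| ^ (M + 1) * (1 / 2) ^ n := by
  have hp' : (2 : ℝ) ≤ |(p : ℝ)| := by exact_mod_cast hp
  have h1 : |xx p (n + k)| = |xx p k| * (|(p : ℝ)| ^ n)⁻¹ := by
    unfold xx
    rw [abs_inv, abs_inv, abs_pow, abs_pow, pow_add, mul_inv, mul_comm]
  have h2 : (|(p : ℝ)| ^ n)⁻¹ ≤ (1 / 2) ^ n := by
    rw [one_div, inv_pow]
    exact inv_anti₀ (by positivity) (pow_le_pow_left₀ (by norm_num) hp' n)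
  have h3 : (0 : ℝ) ≤ (|(p : ℝ)| ^ n)⁻¹ := by positivity
  have h4 : (1 / 2 : ℝ) ^ n ≤ 1 := pow_le_one₀ (by norm_num) (by norm_num)
  have h5 : ((|(p : ℝ)| ^ n)⁻¹) ^ (M + 1) ≤ (1 / 2) ^ n :=
    (pow_le_pow_left₀ h3 h2 _).trans (pow_le_of_le_one (by positivity) h4 (by omega))
  rw [h1, mul_pow]
  exact mul_le_mul_of_nonneg_left h5 (by positivity)

/-- The factor in front of `|x_t|^(M+1)` in `S_KB`. -/
noncomputable def Z (w : Polynomial ℤ) (s : ℕ) (p : ℤ) (M N a a' c d : ℕ) : ℝ :=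
  Cw w * ((M : ℝ) + 2) ^ 2 * ea p a ^ s * ea p a' ^ s * |xx p (a + 1)| ^ c *
    |xx p (a' + 1)| ^ d * ww p N

theorem Z_nonneg (w : Polynomial ℤ) (s : ℕ) (p : ℤ) (M N a a' c d : ℕ) :
    0 ≤ Z w s p M N a a' c d := by
  have h1 := Cw_nonneg w
  have h2 := ea_nonneg p a
  have h3 := ea_nonneg p a'
  have h4 := ww_nonneg p N
  unfold Z
  positivity

theorem kap_bd (hKB : S_KB) {w : Polynomial ℤ} {s : ℕ} (hw : Adm w s) {p : ℤ} (hp : 2 ≤ |p|)
    (M N : ℕ) {a a' c d k : ℕ} (hc : c ≤ 2) (hd : d ≤ 2) (ha : a ≤ k) (ha' : a' ≤ k) (n : ℕ) :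
    |kap w p M N (n + k + 1) (FF s p a c * FF s p a' d)| ≤
      Z w s p M N a a' c d * |xx p (k + 1)| ^ (M + 1) * (1 / 2) ^ n := by
  have h1 := hKB w s hw p hp M N (n + k + 1) a a' c d (by omega) (by omega) hc hd
  have h2 := xx_pow hp (k + 1) n M
  rw [← add_assoc] at h2
  calc |kap w p M N (n + k + 1) (FF s p a c * FF s p a' d)|
      ≤ Z w s p M N a a' c d * |xx p (n + k + 1)| ^ (M + 1) := by
        refine h1.trans (le_of_eq ?_)
        unfold Z
        ring
    _ ≤ Z w s p M N a a' c d * (|xx p (k + 1)| ^ (M + 1) * (1 / 2) ^ n) :=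
        mul_le_mul_of_nonneg_left h2 (Z_nonneg _ _ _ _ _ _ _ _ _)
    _ = _ := by ring

theorem van (hVAN : S_VAN) (hDEG : S_DEG) {w : Polynomial ℤ} {s : ℕ} (hw : Adm w s) (p : ℤ)
    (M N a a' c d t : ℕ) (h1 : 1 ≤ t) (h : t ≤ a ∨ t ≤ a') :
    kap w p M N t (FF s p a c * FF s p a' d) = 0 := by
  apply hVAN w s hw
  rcases h with h | h
  · exact (hDEG.2 s p a c t h1 h).mul_right _
  · exact (hDEG.2 s p a' d t h1 h).mul_left _

theorem van2 (hVAN : S_VAN) {w : Polynomial ℤ} {s : ℕ} (hw : Adm w s) (p : ℤ) (M N a c d : ℕ)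
    (h : s ≤ c + d) : kap w p M N (a + 1) (FF s p a c * FF s p a d) = 0 := by
  apply hVAN w s hw
  have h1 : FF s p a c * FF s p a d = EE p a ^ s * EE p a ^ s *
      (Polynomial.X - Polynomial.C (xx p (a + 1))) ^ (c + d) := by
    unfold FF
    rw [pow_add]
    ring
  rw [h1]
  exact (pow_dvd_pow _ h).mul_left _

end P_NZ1

open P_NZ1 in
theorem t_NZ1 (hHLL : S_HLL) (hVAN : S_VAN) (hKB : S_KB) (hDEG : S_DEG) (hMAIN : S_MAIN) :
    S_NZ1 := by
  intro w s hw p hp M N
  obtain ⟨hs2, hs3, -⟩ := id hw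
  have hS : ∀ a a' c d : ℕ, s * a + c < N → s * a' + d < N →
      HasSum (fun t : ℕ => kap w p M N (t + 1) (FF s p a c * FF s p a' d))
        (LL w p M N (FF s p a c) (FF s p a' d)) := by
    intro a a' c d h1 h2
    exact hHLL w s hw p hp M N _ _ (by rw [(hDEG.1 s p a c).2]; exact h1)
      (by rw [(hDEG.1 s p a' d).2]; exact h2)
  refine ⟨?_, ?_, ?_⟩
  · intro a a' c c' hc hc' h1 h2
    have h3 := sum_bd (X := Z w s p M N a a' c (s - 1 - c') * |xx p (max a a' + 1)| ^ (M + 1))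
      (max a a') (hS a a' c (s - 1 - c') h1 (by omega)) ?_ ?_
    · refine h3.trans (le_of_eq ?_)
      unfold Z
      ring
    · intro t ht
      exact van hVAN hDEG hw p M N a a' c (s - 1 - c') (t + 1) (by omega) (by omega)
    · intro n
      exact kap_bd hKB hw hp M N (by omega) (by omega) (le_max_left _ _) (le_max_right _ _) n
  · intro a c c' hc hc' h1
    have h3 := sum_bd (X := Z w s p M N a a c (s - 1 - c') * |xx p (a + 1 + 1)| ^ (M + 1)) (a + 1)
      (hS a a c (s - 1 - c') (by omega) (by omega)) ?_ ?_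
    · refine h3.trans (le_of_eq ?_)
      unfold Z
      rw [pow_add |xx p (a + 1)| c (s - 1 - c')]
      ring
    · intro t ht
      rcases Nat.lt_or_ge t a with h | h
      · exact van hVAN hDEG hw p M N a a c (s - 1 - c') (t + 1) (by omega) (Or.inl (by omega))
      · have h4 : t = a := by omega
        rw [h4]
        exact van2 hVAN hw p M N a c (s - 1 - c') (by omega)
    · intro n
      exact kap_bd hKB hw hp M N (by omega) (by omega) (by omega) (by omega) n
  · intro a c hc h1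
    have h2 := hS a a c (s - 1 - c) (by omega) (by omega)
    set f : ℕ → ℝ := fun t => kap w p M N (t + 1) (FF s p a c * FF s p a (s - 1 - c)) with hf
    have h3 : HasSum (fun t => f t - if t = a then f a else 0)
        (LL w p M N (FF s p a c) (FF s p a (s - 1 - c)) - f a) := h2.sub (hasSum_ite_eq a (f a))
    have h4 := sum_bd (X := Z w s p M N a a c (s - 1 - c) * |xx p (a + 1 + 1)| ^ (M + 1)) (a + 1)
      h3 ?_ ?_
    · have h5 := hMAIN w s hw p hp M N a c hc
      have h6 : |f a| - |LL w p M N (FF s p a c) (FF s p a (s - 1 - c))| ≤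
          |LL w p M N (FF s p a c) (FF s p a (s - 1 - c)) - f a| := by
        rw [abs_sub_comm]
        exact abs_sub_abs_le_abs_sub _ _
      have h7 : f a = kap w p M N (a + 1) (FF s p a c * FF s p a (s - 1 - c)) := rfl
      rw [← h7] at h5
      have h8 : 2 * (Z w s p M N a a c (s - 1 - c) * |xx p (a + 1 + 1)| ^ (M + 1)) =
          2 * Cw w * ((M : ℝ) + 2) ^ 2 * |xx p (a + 2)| ^ (M + 1) * ea p a ^ (2 * s) *
          |xx p (a + 1)| ^ (s - 1) * ww p N := by
        have h9 : |xx p (a + 1)| ^ (s - 1) =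
            |xx p (a + 1)| ^ c * |xx p (a + 1)| ^ (s - 1 - c) := by
          rw [← pow_add]
          congr 1
          omega
        rw [h9, two_mul s, pow_add (ea p a)]
        unfold Z
        ring
      linarith
    · intro t ht
      rcases Nat.lt_or_ge t a with h | h
      · simp only [if_neg h.ne, sub_zero]
        exact van hVAN hDEG hw p M N a a c (s - 1 - c) (t + 1) (by omega) (Or.inl (by omega))
      · have h4 : t = a := by omega
        simp only [h4, if_true, sub_self]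
    · intro n
      have h5 : ¬ n + (a + 1) = a := by omega
      simp only [if_neg h5, sub_zero]
      exact kap_bd hKB hw hp M N (by omega) (by omega) (by omega) (by omega) n

end Pool.Agent.H475.QL
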