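import Pool.Agent.H475.QL.Stm

/-!
`zeta w p = w_1 ∑ σ_1(n)/p^n + w_2 ∑ σ_2(n)/p^n`.
-/

set_option autoImplicit false

namespace Pool.Agent.H475.QL

open Finset

namespace P_SIG

theorem tsum_pnat {f : ℕ → ℝ} (hf : f 0 = 0) : ∑' n : ℕ+, f (n : ℕ) = ∑' n : ℕ, f n := by
  refine Function.Injective.tsum_eq (g := fun n : ℕ+ => (n : ℕ)) PNat.coe_injective ?_
  intro n hn
  rw [Function.mem_support] at hn
  have h0 : 0 < n := by
    rcases Nat.eq_zero_or_pos n with h | h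
    · exact absurd (h ▸ hf) hn
    · exact h
  exact ⟨⟨n, h0⟩, rfl⟩

theorem bd (p : ℤ) (hp : 2 ≤ |p|) (j n : ℕ) :
    ‖(n : ℝ) ^ j / ((p : ℝ) ^ n - 1)‖ ≤ 2 * ((n : ℝ) ^ j * (1 / 2 : ℝ) ^ n) := by
  have hp' : (2 : ℝ) ≤ |(p : ℝ)| := by exact_mod_cast hp
  rcases Nat.eq_zero_or_pos n with rfl | hn
  · simp
  · have h1 : (2 : ℝ) ^ n ≤ |(p : ℝ)| ^ n := pow_le_pow_left₀ (by norm_num) hp' n
    have h2 : (2 : ℝ) ≤ 2 ^ n := by
      calc (2 : ℝ) = 2 ^ 1 := by norm_num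
        _ ≤ 2 ^ n := pow_le_pow_right₀ (by norm_num) hn
    have h3 : |(p : ℝ)| ^ n - 1 ≤ |(p : ℝ) ^ n - 1| := by
      rw [← abs_pow]
      have := abs_sub_abs_le_abs_sub ((p : ℝ) ^ n) 1
      rwa [abs_one] at this
    have h4 : (2 : ℝ) ^ n / 2 ≤ |(p : ℝ) ^ n - 1| := by linarith
    have h5 : (0 : ℝ) < 2 ^ n / 2 := by positivity
    rw [Real.norm_eq_abs, abs_div, abs_of_nonneg (by positivity : (0 : ℝ) ≤ (n : ℝ) ^ j)]
    calc (n : ℝ) ^ j / |(p : ℝ) ^ n - 1| ≤ (n : ℝ) ^ j / (2 ^ n / 2) :=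
          div_le_div_of_nonneg_left (by positivity) h5 h4
      _ = 2 * ((n : ℝ) ^ j * (1 / 2 : ℝ) ^ n) := by
          rw [one_div, inv_pow]
          field_simp

theorem sm (p : ℤ) (hp : 2 ≤ |p|) (j : ℕ) :
    Summable fun n : ℕ => (n : ℝ) ^ j / ((p : ℝ) ^ n - 1) := by
  refine Summable.of_norm_bounded ?_ (bd p hp j)
  apply Summable.mul_left
  apply summable_pow_mul_geometric_of_norm_lt_one
  rw [Real.norm_eq_abs, abs_of_pos (by norm_num)]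
  norm_num

theorem sig (p : ℤ) (hp : 2 ≤ |p|) (j : ℕ) :
    ∑' n : ℕ, (n : ℝ) ^ j / ((p : ℝ) ^ n - 1) =
      ∑' n : ℕ, (ArithmeticFunction.sigma j n : ℝ) / (p : ℝ) ^ n := by
  have hp' : (2 : ℝ) ≤ |(p : ℝ)| := by exact_mod_cast hp
  have hp0 : (p : ℝ) ≠ 0 := by
    intro h
    rw [h, abs_zero] at hp'
    norm_num at hp'
  have hr : ‖((p : ℝ))⁻¹‖ < 1 := by
    rw [norm_inv, Real.norm_eq_abs]
    exact inv_lt_one_of_one_lt₀ (by linarith)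
  have h := tsum_pow_div_one_sub_eq_tsum_sigma hr j
  have h1 : ∑' n : ℕ+, (((n : ℕ) : ℝ) ^ j * ((p : ℝ)⁻¹) ^ (n : ℕ) / (1 - ((p : ℝ)⁻¹) ^ (n : ℕ))) =
      ∑' n : ℕ, (n : ℝ) ^ j / ((p : ℝ) ^ n - 1) := by
    rw [← tsum_pnat (f := fun n => (n : ℝ) ^ j / ((p : ℝ) ^ n - 1)) (by simp)]
    refine tsum_congr fun n => ?_
    rw [inv_pow]
    have hn : (p : ℝ) ^ (n : ℕ) ≠ 0 := pow_ne_zero _ hp0
    have hn1 : (p : ℝ) ^ (n : ℕ) - 1 ≠ 0 := by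
      intro h0
      have h2 : |(p : ℝ) ^ (n : ℕ)| = 1 := by
        rw [sub_eq_zero.1 h0, abs_one]
      rw [abs_pow] at h2
      have h3 : 1 < |(p : ℝ)| ^ (n : ℕ) := one_lt_pow₀ (by linarith) n.ne_zero
      linarith
    have hn2 : 1 - ((p : ℝ) ^ (n : ℕ))⁻¹ ≠ 0 := by
      intro h0
      apply hn1
      have h2 : ((p : ℝ) ^ (n : ℕ))⁻¹ = 1 := by linarith
      rw [inv_eq_one.1 h2, sub_self]
    rw [div_eq_div_iff hn2 hn1]
    field_simp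
  have h2 : ∑' n : ℕ+, ((ArithmeticFunction.sigma j (n : ℕ) : ℕ) : ℝ) * ((p : ℝ)⁻¹) ^ (n : ℕ) =
      ∑' n : ℕ, (ArithmeticFunction.sigma j n : ℝ) / (p : ℝ) ^ n := by
    rw [← tsum_pnat (f := fun n => (ArithmeticFunction.sigma j n : ℝ) / (p : ℝ) ^ n)
      (by simp)]
    refine tsum_congr fun n => ?_
    rw [inv_pow, div_eq_mul_inv]
  rw [← h1, ← h2]
  exact h

theorem ev (w : Polynomial ℤ) (s : ℕ) (h : Adm w s) (e : ℤ) :
    w.eval e = w.coeff 1 * e + w.coeff 2 * e ^ 2 := by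
  obtain ⟨-, h3, hd, -, h0⟩ := h
  rw [Polynomial.eval_eq_sum_range' (n := 3) (by omega), Finset.sum_range_succ,
    Finset.sum_range_succ, Finset.sum_range_succ, Finset.sum_range_zero, h0]
  ring

end P_SIG

theorem t_SIG : S_SIG := by
  intro w s hw p hp
  rw [← P_SIG.sig p hp 1, ← P_SIG.sig p hp 2, ← tsum_mul_left, ← tsum_mul_left,
    ← ((P_SIG.sm p hp 1).mul_left _).tsum_add ((P_SIG.sm p hp 2).mul_left _), zeta]
  refine tsum_congr fun e => ?_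
  rw [cR, P_SIG.ev w s hw]
  push_cast
  rw [pow_one]
  ring

end Pool.Agent.H475.QL
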