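import Pool.Agent.H475.QL.Stm

/-! Summability. -/

set_option autoImplicit false

namespace Pool.Agent.H475.QL.P_SUM

open Finset

/-- the constant -/
noncomputable def C (w : Polynomial ℤ) : ℝ := ∑ j ∈ range 3, |(w.coeff j : ℝ)|

theorem C_nonneg (w : Polynomial ℤ) : 0 ≤ C w := sum_nonneg fun _ _ => abs_nonneg _

theorem ev (w : Polynomial ℤ) (hw : w.natDegree < 3) (n : ℕ) (hn : 1 ≤ n) :
    |((w.eval (n : ℤ) : ℤ) : ℝ)| ≤ C w * (n : ℝ) ^ 2 := by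
  have hn' : (1 : ℝ) ≤ (n : ℝ) := by exact_mod_cast hn
  rw [Polynomial.eval_eq_sum_range' hw]
  push_cast
  unfold C
  rw [sum_mul]
  refine (abs_sum_le_sum_abs _ _).trans (sum_le_sum fun j hj => ?_)
  rw [abs_mul, abs_of_nonneg (by positivity : (0 : ℝ) ≤ (n : ℝ) ^ j)]
  refine mul_le_mul_of_nonneg_left (pow_le_pow_right₀ hn' ?_) (abs_nonneg _)
  rw [mem_range] at hj
  omega

theorem bd (w : Polynomial ℤ) (hw : w.natDegree < 3) (p : ℤ) (hp : 2 ≤ |p|) (n : ℕ) :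
    ‖cR w p n‖ ≤ C w * (2 * ((n : ℝ) ^ 2 * (1 / 2 : ℝ) ^ n)) := by
  have hp' : (2 : ℝ) ≤ |(p : ℝ)| := by exact_mod_cast hp
  have hC := C_nonneg w
  rcases Nat.eq_zero_or_pos n with rfl | hn
  · simp [cR]
  · have h1 : (2 : ℝ) ^ n ≤ |(p : ℝ)| ^ n := pow_le_pow_left₀ (by norm_num) hp' n
    have h2 : (2 : ℝ) ≤ 2 ^ n := by
      calc (2 : ℝ) = 2 ^ 1 := by norm_num
        _ ≤ 2 ^ n := pow_le_pow_right₀ (by norm_num) hn
    have h3 : |(p : ℝ)| ^ n - 1 ≤ |(p : ℝ) ^ n - 1| := by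
      rw [← abs_pow]
      have := abs_sub_abs_le_abs_sub ((p : ℝ) ^ n) 1
      rwa [abs_one] at this
    have h4 : (2 : ℝ) ^ n / 2 ≤ |(p : ℝ) ^ n - 1| := by linarith
    have h5 : (0 : ℝ) < 2 ^ n / 2 := by positivity
    rw [cR, Real.norm_eq_abs, abs_div]
    calc |((w.eval (n : ℤ) : ℤ) : ℝ)| / |(p : ℝ) ^ n - 1|
        ≤ (C w * (n : ℝ) ^ 2) / (2 ^ n / 2) := by
          refine div_le_div₀ (by positivity) (ev w hw n hn) h5 h4
      _ = C w * (2 * ((n : ℝ) ^ 2 * (1 / 2 : ℝ) ^ n)) := by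
          rw [one_div, inv_pow]
          field_simp

theorem sm (w : Polynomial ℤ) :
    Summable fun n : ℕ => C w * (2 * ((n : ℝ) ^ 2 * (1 / 2 : ℝ) ^ n)) := by
  apply Summable.mul_left
  apply Summable.mul_left
  apply summable_pow_mul_geometric_of_norm_lt_one
  rw [Real.norm_eq_abs, abs_of_pos (by norm_num)]
  norm_num

end Pool.Agent.H475.QL.P_SUM

namespace Pool.Agent.H475.QL

open P_SUM in
theorem t_SUM : S_SUM := by
  intro w s hw p hp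
  have hp' : (2 : ℝ) ≤ |(p : ℝ)| := by exact_mod_cast hp
  have hd : w.natDegree < 3 := lt_of_lt_of_le hw.2.2.1 hw.2.1
  refine ⟨fun k J => ?_, Summable.of_norm_bounded (sm w) (bd w hd p hp)⟩
  have h1 : Summable fun e : ℕ =>
      P_SUM.C w * (2 * (((e + (1 + J) : ℕ) : ℝ) ^ 2 * (1 / 2 : ℝ) ^ (e + (1 + J)))) :=
    (summable_nat_add_iff (f := fun n : ℕ => P_SUM.C w * (2 * ((n : ℝ) ^ 2 * (1 / 2 : ℝ) ^ n)))
      (1 + J)).2 (sm w)
  refine Summable.of_norm_bounded h1 fun e => ?_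
  have h2 := bd w hd p hp (e + 1 + J)
  rw [add_assoc] at h2
  have h3 : ‖((p : ℝ) ^ (k * (e + 1)))⁻¹‖ ≤ 1 := by
    rw [norm_inv, norm_pow, Real.norm_eq_abs]
    exact inv_le_one_of_one_le₀ (one_le_pow₀ (by linarith))
  rw [norm_mul, add_assoc]
  calc _ ≤ 1 * ‖cR w p (e + (1 + J))‖ := mul_le_mul_of_nonneg_right h3 (norm_nonneg _)
    _ ≤ _ := by rw [one_mul]; exact h2

end Pool.Agent.H475.QL
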