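import Pool.Agent.H475.QL.Stm
import Pool.Agent.H475.QZ.P_DET
import Pool.Agent.H475.QZ.P_DU

set_option autoImplicit false

namespace Pool.Agent.H475.QL

open Finset Polynomial Pool.Agent.H475.QZ

namespace P_UP

theorem LL_eq (w : Polynomial ℤ) (p : ℤ) (M N : ℕ) (F G : Polynomial ℝ) :
    ∑ k : Fin N, ∑ l : Fin N, F.eval ((p : ℝ) ^ (k : ℕ)) / pik ℝ p N k * QL.A w p M N k l *
        G.coeff l = QL.LL w p M N F G := by
  unfold QL.LL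
  rw [← Fin.sum_univ_eq_sum_range (fun k => ∑ j ∈ range N,
    F.eval ((p : ℝ) ^ k) / pik ℝ p N k * QL.a w p k (M + j) * G.coeff j) N]
  refine Finset.sum_congr rfl fun k _ => ?_
  rw [← Fin.sum_univ_eq_sum_range (fun j =>
    F.eval ((p : ℝ) ^ (k : ℕ)) / pik ℝ p N k * QL.a w p k (M + j) * G.coeff j) N]
  rfl

theorem ww_pow (p : ℤ) (hp : 2 ≤ |p|) (N : ℕ) :
    ww p N ^ (2 * N) * |(p : ℝ)| ^ (N ^ 3) = |(p : ℝ)| ^ (N ^ 2) := by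
  have hP0 : (0 : ℝ) < |(p : ℝ)| := by
    rw [abs_pos]
    intro h
    have h' : p = 0 := by exact_mod_cast h
    rw [h'] at hp; norm_num at hp
  unfold ww
  rw [inv_pow, ← pow_mul]
  have h1 : N * (N - 1) / 2 * (2 * N) + N ^ 2 = N ^ 3 := by
    have hev : 2 ∣ N * (N - 1) := by
      rcases Nat.eq_zero_or_pos N with h0 | h0
      · rw [h0]; simp
      · have := (Nat.even_mul_pred_self N).two_dvd
        exact this
    obtain ⟨m, hm⟩ := hev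
    rw [hm, Nat.mul_div_cancel_left _ (by norm_num)]
    have h2 : 2 * m * N + N ^ 2 = N ^ 3 := by
      rw [← hm]
      rcases Nat.eq_zero_or_pos N with h0 | h0
      · rw [h0]; simp
      · obtain ⟨k, hk⟩ : ∃ k, N - 1 = k := ⟨_, rfl⟩
        have hk' : N = k + 1 := by omega
        rw [hk, hk']
        ring
    calc m * (2 * N) + N ^ 2 = 2 * m * N + N ^ 2 := by ring
      _ = N ^ 3 := h2
  rw [← h1, pow_add, ← mul_assoc, inv_mul_cancel₀ (pow_pos hP0 _).ne', one_mul]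

theorem fac_le (P : ℝ) (hP : 2 ≤ P) (N : ℕ) : (N.factorial : ℝ) ≤ P ^ (N ^ 2) := by
  have h1 : (N.factorial : ℝ) ≤ (N : ℝ) ^ N := by
    exact_mod_cast Nat.factorial_le_pow N
  have h2 : (N : ℝ) ≤ P ^ N := by
    have h3 : (N : ℝ) ≤ 2 ^ N := by exact_mod_cast (Nat.lt_two_pow_self).le
    exact h3.trans (pow_le_pow_left₀ (by norm_num) hP _)
  calc (N.factorial : ℝ) ≤ (N : ℝ) ^ N := h1
    _ ≤ (P ^ N) ^ N := pow_le_pow_left₀ (Nat.cast_nonneg _) h2 _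
    _ = P ^ (N ^ 2) := by rw [← pow_mul]; congr 1; ring

end P_UP

open P_UP in
theorem t_UP (hDEG : S_DEG) (hUP1 : S_UP1) (hVB : S_VB) : S_UP := by
  intro w s hws p hp M
  obtain ⟨hs2, hs3, -, -, -⟩ := id hws
  have hs1 : 1 ≤ s := by omega
  have hPR : (2 : ℝ) ≤ |(p : ℝ)| := by exact_mod_cast hp
  obtain ⟨P, hP⟩ : ∃ P : ℝ, P = |(p : ℝ)| := ⟨_, rfl⟩
  have hP2 : 2 ≤ P := by rw [hP]; exact hPR
  have hP0 : 0 < P := by linarith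
  have hP1 : 1 ≤ P := by linarith
  obtain ⟨B0, hB0⟩ : ∃ B0 : ℝ, B0 = Cw w * ((M : ℝ) + 2) ^ 2 := ⟨_, rfl⟩
  have hCw : 0 ≤ Cw w := by unfold Cw; positivity
  have hB00 : 0 ≤ B0 := by rw [hB0]; positivity
  obtain ⟨C', hC'⟩ := pow_unbounded_of_one_lt B0 (by norm_num : (1 : ℝ) < 2)
  refine ⟨11 * s ^ 2 + 6 * C' * s, fun K hK => ?_⟩
  obtain ⟨hV1', hV2'⟩ := hVB p hp
  have hV1 := hV1' (s * K)
  have hV2 := hV2' s K hs1
  obtain ⟨r, hr⟩ : ∃ r : Fin (s * K) → ℝ, r = fun i : Fin (s * K) => ea p ((i : ℕ) / s) ^ s :=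
    ⟨_, rfl⟩
  have hea : ∀ a, 0 ≤ ea p a := fun a => by unfold ea; positivity
  have hww : 0 ≤ ww p (s * K) := by unfold ww; positivity
  have hr0 : ∀ i, 0 ≤ r i := fun i => by rw [hr]; exact pow_nonneg (hea _) _
  have hF : ∀ i : Fin (s * K), (QL.FF s p ((i : ℕ) / s) ((i : ℕ) % s)).Monic ∧
      (QL.FF s p ((i : ℕ) / s) ((i : ℕ) % s)).natDegree = i := by
    intro i
    obtain ⟨h1, h2⟩ := hDEG.1 s p ((i : ℕ) / s) ((i : ℕ) % s)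
    refine ⟨h1, ?_⟩
    rw [h2]
    exact Nat.div_add_mod _ _
  have hdet := t_DET ℝ p hp (s * K) (QL.A w p M (s * K)) _ _ hF hF
  obtain ⟨T, hT⟩ : ∃ T : Matrix (Fin (s * K)) (Fin (s * K)) ℝ, T = Matrix.of fun i j : Fin (s * K) =>
      ∑ k : Fin (s * K), ∑ l : Fin (s * K),
      (QL.FF s p ((i : ℕ) / s) ((i : ℕ) % s)).eval ((p : ℝ) ^ (k : ℕ)) / pik ℝ p (s * K) k *
        QL.A w p M (s * K) k l *
        (QL.FF s p ((j : ℕ) / s) ((j : ℕ) % s)).coeff l := ⟨_, rfl⟩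
  rw [← hT] at hdet
  have hmod : ∀ i : ℕ, i % s ≤ 2 := fun i => by
    have := Nat.mod_lt i (show 0 < s by omega)
    omega
  have hTb : ∀ i j, |T i j| ≤ (B0 * ww p (s * K)) * r i * r j := by
    intro i j
    have e : T i j = QL.LL w p M (s * K) (QL.FF s p ((i : ℕ) / s) ((i : ℕ) % s))
        (QL.FF s p ((j : ℕ) / s) ((j : ℕ) % s)) := by
      rw [hT]; exact LL_eq w p M (s * K) _ _
    have h1 := hUP1 w s hws p hp M (s * K) ((i : ℕ) / s) ((j : ℕ) / s) ((i : ℕ) % s) ((j : ℕ) % s)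
      (hmod _) (hmod _) (by rw [Nat.div_add_mod]; exact i.2) (by rw [Nat.div_add_mod]; exact j.2)
    rw [e]
    refine h1.trans_eq ?_
    rw [hB0, hr]
    ring
  have hdu := t_DU (s * K) T (B0 * ww p (s * K)) r (mul_nonneg hB00 hww) hr0 hTb
  obtain ⟨R, hR⟩ : ∃ R : ℝ, R = ∏ i, r i ^ 2 := ⟨_, rfl⟩
  have hR0 : 0 ≤ R := by rw [hR]; exact Finset.prod_nonneg fun i _ => sq_nonneg _
  have hV3 : R ^ 3 * P ^ (s ^ 2 * K ^ 3) = P ^ (s ^ 2 * K) := by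
    rw [hR, hP, ← hV2, hr]
  have hww2 := ww_pow p hp (s * K)
  rw [← hP] at hww2 hV1 ⊢
  rw [← hR] at hdu
  have hfac := fac_le P hP2 (s * K)
  obtain ⟨tt, htt⟩ : ∃ tt, tt = |T.det| := ⟨_, rfl⟩
  rw [← htt] at hdu hdet
  obtain ⟨N, hN⟩ : ∃ N : ℕ, N = s * K := ⟨_, rfl⟩
  rw [← hN] at hww2 hV1 hfac hdu
  have hBN : B0 ^ (6 * N) ≤ P ^ (6 * C' * N) := by
    calc B0 ^ (6 * N) ≤ (2 ^ C') ^ (6 * N) := pow_le_pow_left₀ hB00 hC'.le _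
      _ = 2 ^ (6 * C' * N) := by rw [← pow_mul]; congr 1; ring
      _ ≤ P ^ (6 * C' * N) := pow_le_pow_left₀ (by norm_num) hP2 _
  obtain ⟨f, hf⟩ : ∃ f : ℝ, f = (N.factorial : ℝ) := ⟨_, rfl⟩
  have hf0 : 0 ≤ f := by rw [hf]; positivity
  rw [← hf] at hdu hfac
  obtain ⟨u, hu⟩ : ∃ u, u = ww p N := ⟨_, rfl⟩
  have hwwN : 0 ≤ ww p N := by rw [hN]; exact hww
  rw [← hu] at hdu hww2 hwwN
  obtain ⟨V, hV⟩ : ∃ V, V = |VV ℝ p N| := ⟨_, rfl⟩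
  have hV0 : 0 ≤ V := by rw [hV]; exact abs_nonneg _
  rw [← hV] at hV1
  have hA : |(QL.A w p M (s * K)).det| ≤ V * (f * (B0 * u) ^ N * R) := by
    rw [hdet, ← hN, ← hV]
    exact mul_le_mul_of_nonneg_left hdu hV0
  have hV6 : V ^ 6 ≤ P ^ (2 * N ^ 3) := by
    calc V ^ 6 = (V ^ 3) ^ 2 := by ring
      _ ≤ (P ^ (N ^ 3)) ^ 2 := pow_le_pow_left₀ (pow_nonneg hV0 _) hV1 2
      _ = P ^ (2 * N ^ 3) := by rw [← pow_mul]; congr 1; ring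
  have hX0 : 0 ≤ (f * (B0 * u) ^ N * R) := by positivity
  have e3 : P ^ (2 * N ^ 3) * P ^ ((s ^ 3 + 2 * s ^ 2) * K ^ 3) =
      (P ^ (N ^ 3)) ^ 3 * (P ^ (s ^ 2 * K ^ 3)) ^ 2 := by
    rw [← pow_mul, ← pow_mul, ← pow_add, ← pow_add, hN]; congr 1; ring
  have e1 : (u ^ (2 * N)) ^ 3 = (u ^ N) ^ 6 := by rw [← pow_mul, ← pow_mul]; congr 1; ring
  have e2 : B0 ^ (6 * N) = (B0 ^ N) ^ 6 := by rw [← pow_mul]; congr 1; ring
  calc |(QL.A w p M (s * K)).det| ^ 6 * P ^ ((s ^ 3 + 2 * s ^ 2) * K ^ 3)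
      ≤ (V * (f * (B0 * u) ^ N * R)) ^ 6 * P ^ ((s ^ 3 + 2 * s ^ 2) * K ^ 3) := by
        refine mul_le_mul_of_nonneg_right (pow_le_pow_left₀ (abs_nonneg _) hA 6) (by positivity)
    _ = V ^ 6 * ((f * (B0 * u) ^ N * R) ^ 6 * P ^ ((s ^ 3 + 2 * s ^ 2) * K ^ 3)) := by
        rw [mul_pow V, mul_assoc]
    _ ≤ P ^ (2 * N ^ 3) * ((f * (B0 * u) ^ N * R) ^ 6 * P ^ ((s ^ 3 + 2 * s ^ 2) * K ^ 3)) :=
        mul_le_mul_of_nonneg_right hV6 (by positivity)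
    _ = (P ^ (2 * N ^ 3) * P ^ ((s ^ 3 + 2 * s ^ 2) * K ^ 3)) * (f * (B0 * u) ^ N * R) ^ 6 := by
        ring
    _ = ((P ^ (N ^ 3)) ^ 3 * (P ^ (s ^ 2 * K ^ 3)) ^ 2) * (f * (B0 * u) ^ N * R) ^ 6 := by
        rw [e3]
    _ = f ^ 6 * B0 ^ (6 * N) * (u ^ (2 * N) * P ^ (N ^ 3)) ^ 3 *
          (R ^ 3 * P ^ (s ^ 2 * K ^ 3)) ^ 2 := by
        rw [mul_pow (u ^ (2 * N)), e1, e2, mul_pow B0 u]
        ring
    _ = f ^ 6 * B0 ^ (6 * N) * (P ^ (N ^ 2)) ^ 3 * (P ^ (s ^ 2 * K)) ^ 2 := by rw [hww2, hV3]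
    _ ≤ (P ^ (N ^ 2)) ^ 6 * P ^ (6 * C' * N) * (P ^ (N ^ 2)) ^ 3 * (P ^ (s ^ 2 * K)) ^ 2 := by
        refine mul_le_mul_of_nonneg_right (mul_le_mul_of_nonneg_right ?_ (by positivity))
          (by positivity)
        exact mul_le_mul (pow_le_pow_left₀ hf0 hfac 6) hBN (by positivity) (by positivity)
    _ = P ^ (9 * s ^ 2 * K ^ 2 + 6 * C' * s * K + 2 * s ^ 2 * K) := by
        rw [← pow_mul, ← pow_mul, ← pow_mul, ← pow_add, ← pow_add, ← pow_add, hN]; congr 1; ring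
    _ ≤ P ^ ((11 * s ^ 2 + 6 * C' * s) * K ^ 2) := by
        refine pow_le_pow_right₀ hP1 ?_
        have hKK : K ≤ K ^ 2 := by nlinarith
        nlinarith [Nat.mul_le_mul_left (6 * C' * s) hKK, Nat.mul_le_mul_left (2 * s ^ 2) hKK]

end Pool.Agent.H475.QL
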