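import Pool.Agent.H475.QL.Stm

/-! Task QL UP1 (helper390), after `QZ/P_UP1.lean` of helper657. -/

namespace Pool.Agent.H475.QL

open Finset Polynomial Pool.Agent.H475.QZ

namespace P_UP1

theorem xx_abs {p : ℤ} (hp : 2 ≤ |p|) (t : ℕ) : |xx p t| ≤ (1 / 2) ^ t := by
  unfold xx
  rw [abs_inv, abs_pow, one_div, inv_pow]
  have h2 : (2 : ℝ) ≤ |(p : ℝ)| := by exact_mod_cast hp
  exact inv_anti₀ (by positivity) (pow_le_pow_left₀ (by norm_num) h2 t)

theorem xx_le_one {p : ℤ} (hp : 2 ≤ |p|) (t : ℕ) : |xx p t| ≤ 1 :=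
  (xx_abs hp t).trans (pow_le_one₀ (by norm_num) (by norm_num))

theorem van (hVAN : S_VAN) (hDEG : S_DEG) (w : Polynomial ℤ) (s : ℕ) (hw : Adm w s) (p : ℤ)
    (M N a a' c c' t : ℕ) (ht : 1 ≤ t) (h : t ≤ a ∨ t ≤ a') :
    kap w p M N t (FF s p a c * FF s p a' c') = 0 := by
  apply hVAN w s hw
  rcases h with h | h
  · exact (hDEG.2 s p a c t ht h).mul_right _
  · exact (hDEG.2 s p a' c' t ht h).mul_left _

end P_UP1

theorem t_UP1 (hHLL : S_HLL) (hVAN : S_VAN) (hKB : S_KB) (hDEG : S_DEG) : S_UP1 := by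
  intro w s hw p hp M N a a' c c' hc hc' h1 h2
  have e0 : (0 : ℝ) ≤ ea p a := by unfold ea; positivity
  have e0' : (0 : ℝ) ≤ ea p a' := by unfold ea; positivity
  have w0 : (0 : ℝ) ≤ ww p N := by unfold ww; positivity
  have C0 : (0 : ℝ) ≤ Cw w := by
    unfold Cw
    have : (0 : ℝ) ≤ ∑ j ∈ range 3, |(w.coeff j : ℝ)| := sum_nonneg fun _ _ => abs_nonneg _
    positivity
  set K : ℝ := Cw w * ((M : ℝ) + 2) ^ 2 * ea p a ^ s * ea p a' ^ s * ww p N with hK
  have K0 : 0 ≤ K := by rw [hK]; positivity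
  have hs := hHLL w s hw p hp M N (FF s p a c) (FF s p a' c')
    (by rw [(hDEG.1 s p a c).2]; exact h1) (by rw [(hDEG.1 s p a' c').2]; exact h2)
  have hg : HasSum (fun t : ℕ => K / 2 * (1 / 2 : ℝ) ^ t) (K / 2 * 2) :=
    hasSum_geometric_two.mul_left _
  have hb : ∀ t : ℕ, ‖kap w p M N (t + 1) (FF s p a c * FF s p a' c')‖ ≤
      K / 2 * (1 / 2 : ℝ) ^ t := by
    intro t
    by_cases ht : t + 1 ≤ a ∨ t + 1 ≤ a'
    · rw [P_UP1.van hVAN hDEG w s hw p M N a a' c c' (t + 1) (by omega) ht, norm_zero]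
      positivity
    · rw [Real.norm_eq_abs]
      push Not at ht
      refine (hKB w s hw p hp M N (t + 1) a a' c c' ht.1 ht.2 hc hc').trans ?_
      have b1 : |xx p (t + 1)| ^ (M + 1) ≤ (1 / 2) ^ (t + 1) := by
        calc |xx p (t + 1)| ^ (M + 1) = |xx p (t + 1)| ^ M * |xx p (t + 1)| := pow_succ _ _
          _ ≤ 1 * (1 / 2) ^ (t + 1) :=
              mul_le_mul (pow_le_one₀ (abs_nonneg _) (P_UP1.xx_le_one hp _))
                (P_UP1.xx_abs hp _) (abs_nonneg _) (by norm_num)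
          _ = _ := one_mul _
      have b2 : |xx p (a + 1)| ^ c ≤ 1 := pow_le_one₀ (abs_nonneg _) (P_UP1.xx_le_one hp _)
      have b3 : |xx p (a' + 1)| ^ c' ≤ 1 := pow_le_one₀ (abs_nonneg _) (P_UP1.xx_le_one hp _)
      calc Cw w * ((M : ℝ) + 2) ^ 2 * |xx p (t + 1)| ^ (M + 1) * ea p a ^ s * ea p a' ^ s *
            |xx p (a + 1)| ^ c * |xx p (a' + 1)| ^ c' * ww p N
          = K * (|xx p (t + 1)| ^ (M + 1) * (|xx p (a + 1)| ^ c * |xx p (a' + 1)| ^ c')) := by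
            rw [hK]; ring
        _ ≤ K * ((1 / 2) ^ (t + 1) * (1 * 1)) := by
            refine mul_le_mul_of_nonneg_left ?_ K0
            refine mul_le_mul b1 ?_ (by positivity) (by positivity)
            exact mul_le_mul b2 b3 (by positivity) (by norm_num)
        _ = K / 2 * (1 / 2 : ℝ) ^ t := by rw [pow_succ]; ring
  have := hs.norm_le_of_bounded hg hb
  rw [Real.norm_eq_abs] at this
  calc |LL w p M N (FF s p a c) (FF s p a' c')| ≤ K / 2 * 2 := this
    _ = K := by ring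

end Pool.Agent.H475.QL
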