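import Pool.Agent.H475.QL.Stm

/-! Size of the Vandermonde product (`S_VB`). -/

set_option autoImplicit false

namespace Pool.Agent.H475.QL

open Finset Pool.Agent.H475.QZ

namespace P_VB

theorem sum_cube (N : ℕ) : 3 * ∑ l ∈ range N, l * (l + 1) + N = N ^ 3 := by
  induction N with
  | zero => simp
  | succ N ih =>
    rw [Finset.sum_range_succ, mul_add]
    have h : (N + 1) ^ 3 = N ^ 3 + 3 * (N * (N + 1)) + 1 := by ring
    rw [h, ← ih]
    ring

theorem prod_blocks (g : ℕ → ℝ) (s : ℕ) (hs : 1 ≤ s) (K : ℕ) :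
    ∏ i ∈ range (s * K), g (i / s) = ∏ a ∈ range K, g a ^ s := by
  induction K with
  | zero => simp
  | succ K ih =>
    rw [Nat.mul_succ, Finset.prod_range_add, ih, Finset.prod_range_succ]
    have h : ∀ i ∈ range s, g ((s * K + i) / s) = g K := by
      intro i hi
      rw [Nat.mul_add_div (by omega : 0 < s), Nat.div_eq_of_lt (mem_range.1 hi), add_zero]
    rw [Finset.prod_congr rfl h, Finset.prod_const, card_range]

end P_VB

open P_VB

theorem t_VB : S_VB := by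
  intro p hp
  have hp2 : (2 : ℝ) ≤ |(p : ℝ)| := by
    have : ((2 : ℤ) : ℝ) ≤ ((|p| : ℤ) : ℝ) := by exact_mod_cast hp
    rw [Int.cast_abs] at this
    exact_mod_cast this
  have hp1 : (1 : ℝ) ≤ |(p : ℝ)| := by linarith
  have hp0 : (0 : ℝ) < |(p : ℝ)| := by linarith
  constructor
  · intro N
    have h1 : ∀ l i : ℕ, i < l → |(p : ℝ) ^ l - (p : ℝ) ^ i| ≤ |(p : ℝ)| ^ (l + 1) := by
      intro l i hil
      have h2 : |(p : ℝ) ^ l - (p : ℝ) ^ i| ≤ |(p : ℝ)| ^ l + |(p : ℝ)| ^ i := by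
        refine (abs_sub _ _).trans ?_
        rw [abs_pow, abs_pow]
      have h3 : |(p : ℝ)| ^ i ≤ |(p : ℝ)| ^ l := pow_le_pow_right₀ hp1 hil.le
      have h4 : 0 ≤ |(p : ℝ)| ^ l := (pow_pos hp0 l).le
      have h5 : 2 * |(p : ℝ)| ^ l ≤ |(p : ℝ)| * |(p : ℝ)| ^ l := mul_le_mul_of_nonneg_right hp2 h4
      rw [pow_succ']
      linarith
    have h2 : |VV ℝ p N| ≤ ∏ l ∈ range N, |(p : ℝ)| ^ (l * (l + 1)) := by
      unfold VV
      rw [Finset.abs_prod]
      refine Finset.prod_le_prod (fun l _ => abs_nonneg _) fun l _ => ?_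
      rw [Finset.abs_prod]
      have h3 : ∏ i ∈ range l, |(p : ℝ) ^ l - (p : ℝ) ^ i| ≤ ∏ i ∈ range l, |(p : ℝ)| ^ (l + 1) :=
        Finset.prod_le_prod (fun i _ => abs_nonneg _) fun i hi => h1 l i (mem_range.1 hi)
      refine h3.trans (le_of_eq ?_)
      rw [Finset.prod_const, card_range, ← pow_mul, mul_comm]
    rw [Finset.prod_pow_eq_pow_sum] at h2
    refine (pow_le_pow_left₀ (abs_nonneg _) h2 3).trans ?_
    rw [← pow_mul]
    refine pow_le_pow_right₀ hp1 ?_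
    have h3 := sum_cube N
    omega
  · intro s K hs
    have h1 : ∏ i : Fin (s * K), (ea p ((i : ℕ) / s) ^ s) ^ 2 =
        ∏ a ∈ range K, ((ea p a ^ s) ^ 2) ^ s := by
      rw [Fin.prod_univ_eq_prod_range (fun i => (ea p (i / s) ^ s) ^ 2) (s * K)]
      exact prod_blocks (fun a => (ea p a ^ s) ^ 2) s hs K
    have h2 : ∀ a : ℕ, ((ea p a ^ s) ^ 2) ^ s = (|(p : ℝ)| ^ (s ^ 2 * (a * (a + 1))))⁻¹ := by
      intro a
      unfold ea
      rw [inv_pow, inv_pow, inv_pow, ← pow_mul, ← pow_mul, ← pow_mul]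
      have h3 : a * (a + 1) / 2 * 2 = a * (a + 1) :=
        Nat.div_mul_cancel (Nat.even_mul_succ_self a).two_dvd
      have h4 : a * (a + 1) / 2 * (s * (2 * s)) = s ^ 2 * (a * (a + 1)) := by
        rw [← h3]
        have h5 : a * (a + 1) / 2 * 2 / 2 = a * (a + 1) / 2 :=
          Nat.mul_div_cancel _ (by norm_num)
        rw [h5]
        ring
      rw [h4]
    have h3 : ∏ a ∈ range K, ((ea p a ^ s) ^ 2) ^ s =
        (|(p : ℝ)| ^ (∑ a ∈ range K, s ^ 2 * (a * (a + 1))))⁻¹ := by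
      rw [← Finset.prod_pow_eq_pow_sum, ← Finset.prod_inv_distrib]
      exact Finset.prod_congr rfl fun a _ => h2 a
    rw [h1, h3, inv_pow, ← pow_mul]
    have h4 : s ^ 2 * K ^ 3 = (∑ a ∈ range K, s ^ 2 * (a * (a + 1))) * 3 + s ^ 2 * K := by
      rw [← sum_cube K, ← Finset.mul_sum]
      ring
    rw [h4, pow_add, ← mul_assoc, inv_mul_cancel₀ (pow_pos hp0 _).ne', one_mul]

end Pool.Agent.H475.QL

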