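import Pool.Agent.H475.QL.P_ASER
import Pool.Agent.H475.QL.P_CF
import Pool.Agent.H475.QL.P_CP
import Pool.Agent.H475.QL.P_DDB
import Pool.Agent.H475.QL.P_DEG
import Pool.Agent.H475.QL.P_FIN
import Pool.Agent.H475.QL.P_HLL
import Pool.Agent.H475.QL.P_HS
import Pool.Agent.H475.QL.P_INT
import Pool.Agent.H475.QL.P_KB
import Pool.Agent.H475.QL.P_KER
import Pool.Agent.H475.QL.P_MAIN
import Pool.Agent.H475.QL.P_NZ
import Pool.Agent.H475.QL.P_NZ1
import Pool.Agent.H475.QL.P_NZ2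
import Pool.Agent.H475.QL.P_SIG
import Pool.Agent.H475.QL.P_SUM
import Pool.Agent.H475.QL.P_UP
import Pool.Agent.H475.QL.P_UP1
import Pool.Agent.H475.QL.P_VAN
import Pool.Agent.H475.QL.P_VB

/-!
Assembly: `1`, `∑ σ_1(n)/p^n`, `∑ σ_2(n)/p^n` are linearly independent over `ℚ` for every
integer `p`, `|p| ≥ 2`.
-/

namespace Pool.Agent.H475.QL

open Polynomial

theorem zeta_irrational (w : Polynomial ℤ) (s : ℕ) (hw : Adm w s) (p : ℤ) (hp : 2 ≤ |p|) :
    Irrational (zeta w p) := by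
  have hCF : S_CF := t_CF t_SUM
  have hCP : S_CP := t_CP t_HS
  have hHLL : S_HLL := t_HLL (t_ASER t_KER)
  have hUP1 : S_UP1 := t_UP1 hHLL t_VAN t_KB t_DEG
  have hUP : S_UP := t_UP t_DEG hUP1 t_VB
  have hNZ1 : S_NZ1 := t_NZ1 hHLL t_VAN t_KB t_DEG t_MAIN
  have hNZ : S_NZ := t_NZ hNZ1 t_NZ2 t_DEG
  exact t_FIN hCF t_INT hCP t_DDB hUP hNZ w s hw p hp

/-- `∑ σ_{j}(n)/p^n`. -/
noncomputable def Z (j : ℕ) (p : ℤ) : ℝ :=
  ∑' n : ℕ, (ArithmeticFunction.sigma j n : ℝ) / (p : ℝ) ^ n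

theorem comb_irrational (p : ℤ) (hp : 2 ≤ |p|) (u v : ℤ) (h : u ≠ 0 ∨ v ≠ 0) :
    Irrational ((u : ℝ) * Z 1 p + (v : ℝ) * Z 2 p) := by
  set w : Polynomial ℤ := C u * X + C v * X ^ 2 with hwdef
  have c0 : w.coeff 0 = 0 := by
    rw [hwdef, coeff_add, coeff_C_mul, coeff_C_mul, coeff_X, coeff_X_pow]; simp
  have c1 : w.coeff 1 = u := by
    rw [hwdef, coeff_add, coeff_C_mul, coeff_C_mul, coeff_X, coeff_X_pow]; simp
  have c2 : w.coeff 2 = v := by
    rw [hwdef, coeff_add, coeff_C_mul, coeff_C_mul, coeff_X, coeff_X_pow]; simp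
  have hdeg : w.natDegree ≤ 2 := by
    rw [hwdef]
    compute_degree
  by_cases hv : v = 0
  · have hu : u ≠ 0 := by tauto
    have hw : Adm w 2 := by
      refine ⟨le_rfl, by norm_num, ?_, by simpa [c1] using hu, c0⟩
      have : w = C u * X := by rw [hwdef, hv]; simp
      rw [this]
      have : (C u * X : Polynomial ℤ).natDegree ≤ 1 := by compute_degree
      omega
    have h1 := zeta_irrational w 2 hw p hp
    rw [t_SIG w 2 hw p hp, c1, c2] at h1
    exact h1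
  · have hw : Adm w 3 := ⟨by norm_num, le_rfl, by omega, by simpa [c2] using hv, c0⟩
    have h1 := zeta_irrational w 3 hw p hp
    rw [t_SIG w 3 hw p hp, c1, c2] at h1
    exact h1

theorem comb_irrational_rat (p : ℤ) (hp : 2 ≤ |p|) (u v : ℚ) (h : u ≠ 0 ∨ v ≠ 0) :
    Irrational ((u : ℝ) * Z 1 p + (v : ℝ) * Z 2 p) := by
  have hd : ((u.den : ℚ) * (v.den : ℚ)) ≠ 0 := by
    have := u.den_pos; have := v.den_pos; positivity
  have h1 := comb_irrational p hp (u.num * v.den) (v.num * u.den) (by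
    rcases h with h | h
    · left
      exact mul_ne_zero (Rat.num_ne_zero.mpr h) (by exact_mod_cast v.den_pos.ne')
    · right
      exact mul_ne_zero (Rat.num_ne_zero.mpr h) (by exact_mod_cast u.den_pos.ne'))
  intro ⟨q, hq⟩
  apply h1
  refine ⟨(u.den : ℚ) * (v.den : ℚ) * q, ?_⟩
  have hu : (u : ℝ) * (u.den : ℝ) = (u.num : ℝ) := by exact_mod_cast Rat.mul_den_eq_num u
  have hv : (v : ℝ) * (v.den : ℝ) = (v.num : ℝ) := by exact_mod_cast Rat.mul_den_eq_num v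
  push_cast
  rw [hq, ← hu, ← hv]
  ring

theorem linearIndependent (p : ℤ) (hp : 2 ≤ |p|) :
    LinearIndependent ℚ ![(1 : ℝ), Z 1 p, Z 2 p] := by
  rw [Fintype.linearIndependent_iff]
  intro g hg
  simp only [Fin.sum_univ_three, Matrix.cons_val_zero, Matrix.cons_val_one,
    Matrix.cons_val, Rat.smul_def] at hg
  have h12 : g 1 = 0 ∧ g 2 = 0 := by
    by_contra hcon
    have hne : g 1 ≠ 0 ∨ g 2 ≠ 0 := by tauto
    apply comb_irrational_rat p hp (g 1) (g 2) hne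
    refine ⟨-(g 0), ?_⟩
    push_cast
    linarith
  have h0 : g 0 = 0 := by
    rw [h12.1, h12.2] at hg
    simpa using hg
  intro i
  fin_cases i
  · exact h0
  · exact h12.1
  · exact h12.2

end Pool.Agent.H475.QL
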