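import Pool.Agent.H475.QL.Stm
import Pool.Agent.H475.QZ.P_NZ2

set_option autoImplicit false

namespace Pool.Agent.H475.QL

open Finset

namespace P_NZ2

theorem sum_div (s K : ℕ) (hs : 1 ≤ s) (u : ℕ → ℝ) :
    ∑ j : Fin (s * K), u ((j : ℕ) / s) = (s : ℝ) * ∑ a ∈ range K, u a := by
  rw [Fin.sum_univ_eq_sum_range (fun j => u (j / s)) (s * K)]
  induction K with
  | zero => simp
  | succ K ih =>
    rw [Nat.mul_succ, Finset.sum_range_add, ih, Finset.sum_range_succ, mul_add]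
    congr 1
    have h1 : ∀ x ∈ range s, u ((s * K + x) / s) = u K := by
      intro x hx
      rw [Nat.mul_add_div (by omega), Nat.div_eq_of_lt (mem_range.1 hx), add_zero]
    rw [Finset.sum_congr rfl h1, Finset.sum_const, card_range, nsmul_eq_mul]

end P_NZ2

open P_NZ2 QZ.P_NZ2

theorem t_NZ2 : S_NZ2 := by
  intro s K hs1 hs3 T R R' B r δ Λ hR hR' hB hr0 hr1 hΛ hT1 hT2 hT3 hlt hdet
  have hΛ0 : 0 < Λ := lt_of_lt_of_le one_pos hΛ
  -- scaling
  let x : Fin (s * K) → ℝ := fun i => Λ ^ ((i : ℕ) % s) / R ((i : ℕ) / s) ((i : ℕ) % s)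
  let y : Fin (s * K) → ℝ := fun j => (Λ ^ ((j : ℕ) % s))⁻¹ / R' ((j : ℕ) / s) ((j : ℕ) % s)
  have hx : ∀ i, 0 < x i := fun i => div_pos (pow_pos hΛ0 _) (hR _ _)
  have hy : ∀ i, 0 < y i := fun i => div_pos (inv_pos.mpr (pow_pos hΛ0 _)) (hR' _ _)
  let T' : Matrix (Fin (s * K)) (Fin (s * K)) ℝ := Matrix.of fun i j => x i * (y j * T i j)
  have hdet' : T'.det = 0 := by
    have e1 : T' = Matrix.of fun i j => x i * (Matrix.of fun i j => y j * T i j) i j := rfl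
    rw [e1, Matrix.det_mul_column, Matrix.det_mul_row, hdet, mul_zero, mul_zero]
  refine det_ne_zero_of_sum_row_lt_diag (A := T') (fun i => ?_) hdet'
  -- the bound for one entry off the diagonal
  let a : ℕ := (i : ℕ) / s
  let u : ℕ → ℝ := fun b => if b = a then B / Λ + B * Λ ^ 2 * r ^ 2
    else B * Λ ^ 2 * r ^ (((a : ℤ) - (b : ℤ)).natAbs)
  have hxy : ∀ i j : Fin (s * K), x i * y j *
      (R ((i : ℕ) / s) ((i : ℕ) % s) * R' ((j : ℕ) / s) ((j : ℕ) % s)) =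
      Λ ^ ((i : ℕ) % s) * (Λ ^ ((j : ℕ) % s))⁻¹ := by
    intro i j
    have h1 := (hR ((i : ℕ) / s) ((i : ℕ) % s)).ne'
    have h2 := (hR' ((j : ℕ) / s) ((j : ℕ) % s)).ne'
    simp only [x, y]
    field_simp
  have hpow2 : ∀ c c' : ℕ, c < s → Λ ^ c * (Λ ^ c')⁻¹ ≤ Λ ^ 2 := by
    intro c c' hc
    have h1 : Λ ^ c ≤ Λ ^ 2 := pow_le_pow_right₀ hΛ (by omega)
    have h2 : (Λ ^ c')⁻¹ ≤ 1 := inv_le_one_of_one_le₀ (one_le_pow₀ hΛ)
    have h3 : 0 < Λ ^ c := pow_pos hΛ0 _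
    calc Λ ^ c * (Λ ^ c')⁻¹ ≤ Λ ^ c * 1 := mul_le_mul_of_nonneg_left h2 h3.le
      _ = Λ ^ c := mul_one _
      _ ≤ _ := h1
  have hpow1 : ∀ c c' : ℕ, c < c' → Λ ^ c * (Λ ^ c')⁻¹ ≤ Λ⁻¹ := by
    intro c c' hc
    obtain ⟨d, rfl⟩ : ∃ d, c' = c + 1 + d := ⟨c' - c - 1, by omega⟩
    have h2 : (Λ ^ d)⁻¹ ≤ 1 := inv_le_one_of_one_le₀ (one_le_pow₀ hΛ)
    have h3 : Λ ^ c * (Λ ^ (c + 1 + d))⁻¹ = Λ⁻¹ * (Λ ^ d)⁻¹ := by
      rw [pow_add, pow_add, pow_one]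
      have := hΛ0.ne'
      field_simp
    rw [h3]
    calc Λ⁻¹ * (Λ ^ d)⁻¹ ≤ Λ⁻¹ * 1 := mul_le_mul_of_nonneg_left h2 (inv_pos.mpr hΛ0).le
      _ = _ := mul_one _
  have hentry : ∀ j, j ≠ i → ‖T' i j‖ ≤ u ((j : ℕ) / s) := by
    intro j hj
    have hji : (j : ℕ) ≠ (i : ℕ) := fun h => hj (Fin.ext h)
    have e1 : ‖T' i j‖ = x i * y j * |T i j| := by
      show ‖x i * (y j * T i j)‖ = _
      rw [Real.norm_eq_abs, abs_mul, abs_mul, abs_of_pos (hx i), abs_of_pos (hy j)]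
      ring
    rw [e1]
    have hxy0 : 0 < x i * y j := mul_pos (hx i) (hy j)
    by_cases hab : (i : ℕ) / s = (j : ℕ) / s
    · have hu : u ((j : ℕ) / s) = B / Λ + B * Λ ^ 2 * r ^ 2 := if_pos hab.symm
      rw [hu]
      have hn1 : 0 ≤ B / Λ := by positivity
      have hn2 : 0 ≤ B * Λ ^ 2 * r ^ 2 := by positivity
      rcases lt_trichotomy ((i : ℕ) % s) ((j : ℕ) % s) with hc | hc | hc
      · have h1 := hT1 i j
        have e2 : (((((i : ℕ) / s : ℕ) : ℤ) - (((j : ℕ) / s : ℕ) : ℤ)).natAbs) = 0 := by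
          rw [hab]; simp
        rw [e2, pow_zero, mul_one] at h1
        have h2 : x i * y j * |T i j| ≤ B * Λ⁻¹ := by
          calc x i * y j * |T i j| ≤ x i * y j * (B * R ((i : ℕ) / s) ((i : ℕ) % s) *
                R' ((j : ℕ) / s) ((j : ℕ) % s)) := mul_le_mul_of_nonneg_left h1 hxy0.le
            _ = B * (x i * y j * (R ((i : ℕ) / s) ((i : ℕ) % s) *
                R' ((j : ℕ) / s) ((j : ℕ) % s))) := by ring
            _ = B * (Λ ^ ((i : ℕ) % s) * (Λ ^ ((j : ℕ) % s))⁻¹) := by rw [hxy]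
            _ ≤ B * Λ⁻¹ := mul_le_mul_of_nonneg_left (hpow1 _ _ hc) hB
        rw [← div_eq_mul_inv] at h2
        linarith
      · exfalso
        apply hji
        rw [← Nat.div_add_mod (j : ℕ) s, ← Nat.div_add_mod (i : ℕ) s, hab, hc]
      · have h1 := hT2 i j hab hc
        have h2 : x i * y j * |T i j| ≤ B * Λ ^ 2 * r ^ 2 := by
          calc x i * y j * |T i j| ≤ x i * y j * (B * r ^ 2 * R ((i : ℕ) / s) ((i : ℕ) % s) *
                R' ((j : ℕ) / s) ((j : ℕ) % s)) := mul_le_mul_of_nonneg_left h1 hxy0.le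
            _ = B * r ^ 2 * (x i * y j * (R ((i : ℕ) / s) ((i : ℕ) % s) *
                R' ((j : ℕ) / s) ((j : ℕ) % s))) := by ring
            _ = B * r ^ 2 * (Λ ^ ((i : ℕ) % s) * (Λ ^ ((j : ℕ) % s))⁻¹) := by rw [hxy]
            _ ≤ B * r ^ 2 * Λ ^ 2 := mul_le_mul_of_nonneg_left (hpow2 _ _ (Nat.mod_lt _ (by omega)))
                (by positivity)
            _ = _ := by ring
        linarith
    · have hu : u ((j : ℕ) / s) = B * Λ ^ 2 * r ^ (((a : ℤ) - (((j : ℕ) / s : ℕ) : ℤ)).natAbs) :=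
        if_neg (fun h => hab h.symm)
      rw [hu]
      have h1 := hT1 i j
      have hrp : 0 ≤ B * r ^ (((((i : ℕ) / s : ℕ) : ℤ) - (((j : ℕ) / s : ℕ) : ℤ)).natAbs) := by
        positivity
      calc x i * y j * |T i j| ≤ x i * y j * (B *
              r ^ (((((i : ℕ) / s : ℕ) : ℤ) - (((j : ℕ) / s : ℕ) : ℤ)).natAbs) *
              R ((i : ℕ) / s) ((i : ℕ) % s) *
              R' ((j : ℕ) / s) ((j : ℕ) % s)) := mul_le_mul_of_nonneg_left h1 hxy0.le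
        _ = B * r ^ (((((i : ℕ) / s : ℕ) : ℤ) - (((j : ℕ) / s : ℕ) : ℤ)).natAbs) *
              (x i * y j * (R ((i : ℕ) / s) ((i : ℕ) % s) *
              R' ((j : ℕ) / s) ((j : ℕ) % s))) := by ring
        _ = B * r ^ (((((i : ℕ) / s : ℕ) : ℤ) - (((j : ℕ) / s : ℕ) : ℤ)).natAbs) *
              (Λ ^ ((i : ℕ) % s) * (Λ ^ ((j : ℕ) % s))⁻¹) := by rw [hxy]
        _ ≤ B * r ^ (((((i : ℕ) / s : ℕ) : ℤ) - (((j : ℕ) / s : ℕ) : ℤ)).natAbs) * Λ ^ 2 :=
              mul_le_mul_of_nonneg_left (hpow2 _ _ (Nat.mod_lt _ (by omega))) hrp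
        _ = _ := by ring
  -- the diagonal entry
  have hdiag : δ - B * r ^ 2 ≤ ‖T' i i‖ := by
    have e1 : ‖T' i i‖ = x i * y i * |T i i| := by
      show ‖x i * (y i * T i i)‖ = _
      rw [Real.norm_eq_abs, abs_mul, abs_mul, abs_of_pos (hx i), abs_of_pos (hy i)]
      ring
    rw [e1]
    have hxy0 : 0 < x i * y i := mul_pos (hx i) (hy i)
    have h1 := hT3 i
    have h2 := hxy i i
    have h3 : Λ ^ ((i : ℕ) % s) * (Λ ^ ((i : ℕ) % s))⁻¹ = 1 :=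
      mul_inv_cancel₀ (pow_pos hΛ0 _).ne'
    calc δ - B * r ^ 2 = (δ - B * r ^ 2) * (x i * y i *
          (R ((i : ℕ) / s) ((i : ℕ) % s) * R' ((i : ℕ) / s) ((i : ℕ) % s))) := by
            rw [h2, h3, mul_one]
      _ = x i * y i * ((δ - B * r ^ 2) * R ((i : ℕ) / s) ((i : ℕ) % s) *
            R' ((i : ℕ) / s) ((i : ℕ) % s)) := by ring
      _ ≤ _ := mul_le_mul_of_nonneg_left h1 hxy0.le
  -- sum of the bounds
  have haK : a < K := by
    exact Nat.div_lt_of_lt_mul i.isLt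
  have hsum1 : ∑ j ∈ univ.erase i, ‖T' i j‖ ≤ ∑ j ∈ univ.erase i, u ((j : ℕ) / s) :=
    Finset.sum_le_sum fun j hj => hentry j (Finset.ne_of_mem_erase hj)
  have hsum2 : ∑ j ∈ univ.erase i, u ((j : ℕ) / s) = (s : ℝ) * ∑ b ∈ range K, u b - u a := by
    rw [← sum_div s K hs1, ← Finset.add_sum_erase univ (fun j : Fin (s * K) => u ((j : ℕ) / s))
      (Finset.mem_univ i)]
    show _ = u a + _ - u a
    ring
  have hsum3 : ∑ b ∈ range K, u b ≤ (B / Λ + B * Λ ^ 2 * r ^ 2) + B * Λ ^ 2 * (4 * r) := by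
    have e1 : ∑ b ∈ range K, u b = ∑ b ∈ range K, ((if b = a then B / Λ + B * Λ ^ 2 * r ^ 2 else 0) +
        B * Λ ^ 2 * (if b = a then (0 : ℝ) else r ^ (((a : ℤ) - (b : ℤ)).natAbs))) := by
      refine Finset.sum_congr rfl fun b _ => ?_
      show (if b = a then _ else _) = _
      split_ifs
      · ring
      · ring
    rw [e1, Finset.sum_add_distrib, ← Finset.mul_sum, Finset.sum_ite_eq' (range K) a,
      if_pos (Finset.mem_range.mpr haK)]
    have h2 := sum_ne hr0 hr1 K a haK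
    have h3 : 0 ≤ B * Λ ^ 2 := by positivity
    have h4 := mul_le_mul_of_nonneg_left h2 h3
    linarith
  have hua : u a = B / Λ + B * Λ ^ 2 * r ^ 2 := if_pos rfl
  have hfin : B * (12 * Λ ^ 2 * r + 2 / Λ + 2 * Λ ^ 2 * r ^ 2) =
      2 * (B / Λ + B * Λ ^ 2 * r ^ 2) + 3 * (B * Λ ^ 2 * (4 * r)) := by
    have := hΛ0.ne'
    field_simp
    ring
  rw [hsum2] at hsum1
  have hu0 : 0 ≤ ∑ b ∈ range K, u b := by
    refine Finset.sum_nonneg fun b _ => ?_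
    simp only [u]
    split_ifs
    · positivity
    · positivity
  have hs3' : (s : ℝ) ≤ 3 := by exact_mod_cast hs3
  have hs3'' := mul_le_mul_of_nonneg_right hs3' hu0
  linarith

end Pool.Agent.H475.QL
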