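import Pool.Agent.H475.QL.Defs

/-!
Statements for the linear independence of `1, ζ_q(2), ζ_q(3)`, `q = 1/p`.
These generalise the statements of `Pool.Agent.H475.QZ` (case `w = X^2`, `s = 3`), all of which
are proved in `Pool/Agent/H475/QZ/P_*.lean`; the proofs are adaptations of those (replace `3` by
`s`, `e^2` by `w(e)`, `2 coeff_2` by `∑_j w_j j! coeff_j`).
Here always `N = s K`, blocks of size `s`, row index `i = s a + c`, `c < s`, column partner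
`s - 1 - c`.
-/

namespace Pool.Agent.H475.QL

open Finset Polynomial Pool.Agent.H475.QZ

/-! ## A. series and arithmetic -/

/-- Summability. Proof: adapt `QZ/P_SUM.lean`; for `n ≥ 1`, `|w(n)| ≤ C n^2`,
`C = ∑_{j<3} |w_j|`, so `|cR w p n| ≤ 2 C n^2 (1/2)^n`. The term `e = 0` of `cR` is `0`
(division by `0`). -/
def S_SUM : Prop := ∀ (w : Polynomial ℤ) (s : ℕ), Adm w s → ∀ p : ℤ, 2 ≤ |p| →
  (∀ k J : ℕ, Summable (fun e : ℕ => ((p : ℝ) ^ (k * (e + 1)))⁻¹ * cR w p (e + 1 + J))) ∧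
  Summable (cR w p)

/-- Closed form of `a(k,J)`. Proof: adapt `QZ/P_CF.lean`: with `b_k = ∑_{e≥1} q^(ke) c_e`,
`b_k - b_(k+1) = ∑_{e≥1} w(e) y^e` with `y = q^(k+1)`, which is `RR w (p^(k+1))`, because
`∑ e y^e = P/(P-1)^2`, `∑ e^2 y^e = P(P+1)/(P-1)^3` (`P = 1/y`) and `w(e) = w_1 e + w_2 e^2`. -/
def S_CF : Prop := ∀ (w : Polynomial ℤ) (s : ℕ), Adm w s → ∀ p : ℤ, 2 ≤ |p| → ∀ k J : ℕ,
  a w p k J = (p : ℝ) ^ (k * J) * (zeta w p - ((hh w p k : ℚ) : ℝ))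
    - ∑ e ∈ Icc 1 J, (p : ℝ) ^ (k * (J - e)) * ((c w p e : ℚ) : ℝ)

/-- `zeta w p = w_1 ∑ σ_1(n)/p^n + w_2 ∑ σ_2(n)/p^n`, with both series summable.
Proof: adapt `QZ/P_SIG.lean` (`∑ e^j/(p^e-1) = ∑ σ_j(n)/p^n` for `j = 1, 2`). -/
def S_SIG : Prop := ∀ (w : Polynomial ℤ) (s : ℕ), Adm w s → ∀ p : ℤ, 2 ≤ |p| →
  zeta w p =
    (w.coeff 1 : ℝ) * (∑' n : ℕ, (ArithmeticFunction.sigma 1 n : ℝ) / (p : ℝ) ^ n) +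
    (w.coeff 2 : ℝ) * (∑' n : ℕ, (ArithmeticFunction.sigma 2 n : ℝ) / (p : ℝ) ^ n)

/-- Integrality of the determinant. Proof: adapt `QZ/P_INT.lean` (there `s = 3`); if `w` has
degree `< s` then `D_k^s RR w (p^l) ∈ ℤ` for `1 ≤ l ≤ k` (for `s = 2` the coefficient `w_2`
vanishes). -/
def S_INT : Prop := ∀ (w : Polynomial ℤ) (s : ℕ), Adm w s → ∀ p : ℤ, 2 ≤ |p| →
  ∀ (z : ℚ) (b m : ℤ), (b : ℚ) * z = m → ∀ M N : ℕ,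
  ∃ X : ℤ, (X : ℚ) = (b : ℚ) ^ N * (AzM w p z M N).det * (DD s p M N : ℚ)

/-- `∑_k p^(kd) h_k/π_k` has denominator prime to `p`. Proof: adapt `QZ/P_HS.lean` (or use
`QZ.t_HS QZ.t_HR` for the part `w_2`): `hh w p k = w_1 ∑_{l≤k} p^l/(p^l-1)^2 + w_2 (QZ.hh p k)`.
For the part `w_1` the identity is
`y/(y-1)^2 = ∑_{f=1}^F f y^f + y^(F+1) v(y)/(y-1)^2`, `v(y) = (F+1) - F y` (`y ≠ 1`; induction on
`F`), so with `∑_{l=1}^k p^(lf) = p^f (p^(kf)-1)/(p^f-1)`: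
`∑_k p^(kd)/π_k ∑_{l≤k} p^l/(p^l-1)^2 = ∑_{f=1}^F f p^f/(p^f-1) (H_(d+f) - H_d)
 + ∑_k p^(kd) (p^(F+1)/π_k) ∑_{l=1}^k p^((l-1)(F+1)) v(p^l)/(p^l-1)^2`, `F + 1 ≥ N^2`. -/
def S_HS : Prop := ∀ (w : Polynomial ℤ) (s : ℕ), Adm w s → ∀ p : ℤ, 2 ≤ |p| → ∀ N d : ℕ,
  ∑ k ∈ range N, (p : ℚ) ^ (k * d) * hh w p k / pik ℚ p N k ∈ RpS p

/-- The `p`-adic gain. Proof: adapt `QZ/P_CP.lean` (`c w p e ∈ RpS p`). -/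
def S_CP : Prop := ∀ (w : Polynomial ℤ) (s : ℕ), Adm w s → ∀ p : ℤ, 2 ≤ |p| →
  ∀ (z : ℚ) (b m : ℤ), (b : ℚ) * z = m → ∀ M N : ℕ,
  (b : ℚ) ^ N * (AzM w p z M N).det / (p : ℚ) ^ Sg N ∈ RpS p

/-! ## D. size of the denominators -/

/-- Bound for the product of all denominators. Proof: adapt `QZ/P_DDB.lean` (there `s = 3`,
`N = 3K`): by `QZ.S_DK`, `|DD|^25 ≤ |p|^E` with
`E = ∑_{k<N} s (50k + 8(k+30)(k+60)) + ∑_{j<N} (50(M+j) + 8(M+j+30)(M+j+60))` and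
`3 E ≤ 8 (s+1) N^3 + C_M N^2` for `N ≥ 1` (`∑_{k<N} k^2 ≤ N^3/3`), `s ≤ 3`. -/
def S_DDB : Prop := ∀ s : ℕ, s ≤ 3 → ∀ p : ℤ, 2 ≤ |p| → ∀ M : ℕ, ∃ C : ℕ, ∀ N : ℕ, 1 ≤ N →
  |DD s p M N| ^ 75 ≤ |p| ^ (8 * (s + 1) * N ^ 3 + C * N ^ 2)

/-! ## E. analytic part -/

/-- The kernel identity: the three coefficients. Proof: as in `QZ/P_KER.lean` (see the lemmas
`P_KER.coeff2_mul`, `coeff_exp_pow`, `inv_coeffs`, `sq_geom` there). With `y = x/P`,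
`r = 1/(1-y)`, `m = J+1`, the coefficients 0, 1, 2 of the series are
`P⁻¹ x^m r`, `P⁻¹ x^m (m r + y r^2)`, `P⁻¹ x^m (m^2 r/2 + m y r^2 + y r^2/2 + y^2 r^3)`; times
`0!, 1!, 2!` they are `∑_e P^(-(e+1)) (e+1+J)^i x^(e+1+J)`, `i = 0, 1, 2`. -/
def S_KER : Prop := ∀ x P : ℝ, |x| ≤ 1 / 2 → 1 ≤ |P| → ∀ J i : ℕ, i ≤ 2 →
  (i.factorial : ℝ) * PowerSeries.coeff i ((PowerSeries.C x * PowerSeries.exp ℝ) ^ (J + 1) *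
    (PowerSeries.C P - PowerSeries.C x * PowerSeries.exp ℝ)⁻¹) =
  ∑' e : ℕ, (P ^ (e + 1))⁻¹ * ((e + 1 + J : ℕ) : ℝ) ^ i * x ^ (e + 1 + J)

/-- Series for `a(k,J)`. Proof: adapt `QZ/P_ASER.lean`, with `S_KER` for `i = 0, 1, 2` and
`w(n) = ∑_{j<3} w_j n^j` (degree `< 3`); `|w(n)| ≤ C n^2`. -/
def S_ASER : Prop := ∀ (w : Polynomial ℤ) (s : ℕ), Adm w s → ∀ p : ℤ, 2 ≤ |p| → ∀ k J : ℕ,
  HasSum (fun t : ℕ => ∑ j ∈ range 3, (w.coeff j : ℝ) * (j.factorial : ℝ) *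
    PowerSeries.coeff j (XX p (t + 1) ^ (J + 1) *
      (PowerSeries.C ((p : ℝ) ^ k) - XX p (t + 1))⁻¹)) (a w p k J)

/-- Series for `L(F,G)`. Proof: adapt `QZ/P_HLL.lean` (uses `QZ.S_LAG`). -/
def S_HLL : Prop := ∀ (w : Polynomial ℤ) (s : ℕ), Adm w s → ∀ p : ℤ, 2 ≤ |p| →
  ∀ (M N : ℕ) (F G : Polynomial ℝ), F.natDegree < N → G.natDegree < N →
  HasSum (fun t : ℕ => kap w p M N (t + 1) (F * G)) (LL w p M N F G)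

/-- Vanishing. Proof: adapt `QZ/P_VAN.lean`: the series is divisible by `PowerSeries.X ^ s`, so
its coefficients `0, ..., s-1` vanish, and `w.coeff j = 0` for `j ≥ s`. -/
def S_VAN : Prop := ∀ (w : Polynomial ℤ) (s : ℕ), Adm w s → ∀ (p : ℤ) (M N t : ℕ)
  (F : Polynomial ℝ), (Polynomial.X - Polynomial.C (xx p t)) ^ s ∣ F → kap w p M N t F = 0

/-- Bound for `κ_t`, `t > max(a,a')`. Proof: adapt `QZ/P_KB.lean`: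
`|κ_t| ≤ (∑_j |w_j| j!) ν(...) ≤ 2 (∑_j |w_j|) ν(...)`, and
`ν(...) ≤ |x_t|^(M+1) (M+2)^2 (13 e_a)^s ((7/2)|x_(a+1)|)^c (13 e_a')^s ((7/2)|x_(a'+1)|)^c' 3^12 w`
with `13^(2s) ≤ 13^6`, `(7/2)^(c+c') ≤ (7/2)^4`. -/
def S_KB : Prop := ∀ (w : Polynomial ℤ) (s : ℕ), Adm w s → ∀ p : ℤ, 2 ≤ |p| →
  ∀ M N t a a' c c' : ℕ, a < t → a' < t → c ≤ 2 → c' ≤ 2 →
  |kap w p M N t (FF s p a c * FF s p a' c')| ≤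
    Cw w * ((M : ℝ) + 2) ^ 2 * |xx p t| ^ (M + 1) * ea p a ^ s * ea p a' ^ s *
      |xx p (a + 1)| ^ c * |xx p (a' + 1)| ^ c' * ww p N

/-- The main term. Proof: adapt `QZ/P_MAIN.lean`: `F_{(a,c)} F_{(a,s-1-c)} = E_a^(2s) (T-x)^(s-1)`,
`x = x_(a+1)`; at `t = a+1` the series `(X_t - C x)^(s-1)` is `x^(s-1) h^(s-1) + ...`, so all
coefficients below `s-1` vanish, `w_j = 0` for `j ≥ s`, and
`κ_(a+1) = w_(s-1) (s-1)! x^(s-1) x^(M+1) E_a(x)^(2s)/Q(x)`. With `|w_(s-1)| ≥ 1`,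
`|E_a(x)| ≥ e_a/4`, `|Q(x)| ≤ 4/w` (both in `P_MAIN`):
`|κ| ≥ |x|^(M+s) (e_a/4)^(2s) w/4 ≥ (1/2)^14 |x|^(M+s) e_a^(2s) w` as `s ≤ 3`. -/
def S_MAIN : Prop := ∀ (w : Polynomial ℤ) (s : ℕ), Adm w s → ∀ p : ℤ, 2 ≤ |p| →
  ∀ M N a c : ℕ, c < s →
  (1 / 2) ^ 14 * |xx p (a + 1)| ^ (M + s) * ea p a ^ (2 * s) * ww p N ≤
    |kap w p M N (a + 1) (FF s p a c * FF s p a (s - 1 - c))|

/-- Degrees and divisibility. Proof: adapt `QZ/P_DEG.lean`, `QZ/P_DVD.lean`. -/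
def S_DEG : Prop :=
  (∀ (s : ℕ) (p : ℤ) (a c : ℕ), (FF s p a c).Monic ∧ (FF s p a c).natDegree = s * a + c) ∧
  (∀ (s : ℕ) (p : ℤ) (a c t : ℕ), 1 ≤ t → t ≤ a →
    (Polynomial.X - Polynomial.C (xx p t)) ^ s ∣ FF s p a c)

/-- Crude upper bound for the entries. Proof: adapt `QZ/P_UP1.lean`. -/
def S_UP1 : Prop := ∀ (w : Polynomial ℤ) (s : ℕ), Adm w s → ∀ p : ℤ, 2 ≤ |p| →
  ∀ M N a a' c c' : ℕ, c ≤ 2 → c' ≤ 2 → s * a + c < N → s * a' + c' < N →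
  |LL w p M N (FF s p a c) (FF s p a' c')| ≤
    Cw w * ((M : ℝ) + 2) ^ 2 * ea p a ^ s * ea p a' ^ s * ww p N

/-- Size of the Vandermonde product, and of `∏ e_{a_i}`. Proof: adapt `QZ/P_VB.lean`:
`|V| ≤ |p|^(∑_{l<N} l(l+1))`, `3 ∑_{l<N} l(l+1) = (N-1)N(N+1) ≤ N^3`; and with `N = sK`:
`∏_{i<sK} e_{⌊i/s⌋}^(2s) = ∏_{a<K} e_a^(2s^2) = |p|^(-s^2 (K^3-K)/3)`, so the cube of it is
`|p|^(-s^2 (K^3-K))`. -/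
def S_VB : Prop := ∀ p : ℤ, 2 ≤ |p| →
  (∀ N : ℕ, |VV ℝ p N| ^ 3 ≤ |(p : ℝ)| ^ (N ^ 3)) ∧
  (∀ s K : ℕ, 1 ≤ s →
    (∏ i : Fin (s * K), (ea p ((i : ℕ) / s) ^ s) ^ 2) ^ 3 * |(p : ℝ)| ^ (s ^ 2 * K ^ 3)
    = |(p : ℝ)| ^ (s ^ 2 * K))

/-- Upper bound for the determinant. Proof: adapt `QZ/P_UP.lean` (uses `QZ.S_DET`, `QZ.S_DU`):
`|det A| = |V| |det L| ≤ |V| N! (Cw (M+2)^2 w_N)^N ∏_i (e_{i/s}^s)^2`, `N = sK`; sixth power: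
`|V|^6 ≤ |p|^(2N^3)`, `w_N^(6N) = |p|^(-3N^2(N-1))`,
`(∏_i (e_{i/s}^s)^2)^6 = |p|^(-2s^2(K^3-K))`; `2 N^3 - 3 N^3 - 2 s^2 K^3 = -(s^3+2s^2) K^3`, and
the rest is at most `|p|^(C K^2)` for `K ≥ 1`. -/
def S_UP : Prop := ∀ (w : Polynomial ℤ) (s : ℕ), Adm w s → ∀ p : ℤ, 2 ≤ |p| →
  ∀ M : ℕ, ∃ C : ℕ, ∀ K : ℕ, 1 ≤ K →
  |(A w p M (s * K)).det| ^ 6 * |(p : ℝ)| ^ ((s ^ 3 + 2 * s ^ 2) * K ^ 3) ≤
    |(p : ℝ)| ^ (C * K ^ 2)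

/-- Fine bounds for the entries (column partner `s - 1 - c'`). Proof: adapt `QZ/P_NZ1.lean`
(`c' < c < s` gives `c + (s-1-c') ≥ s`, so `κ_(a+1) = 0` in the second claim). -/
def S_NZ1 : Prop := ∀ (w : Polynomial ℤ) (s : ℕ), Adm w s → ∀ p : ℤ, 2 ≤ |p| → ∀ M N : ℕ,
  (∀ a a' c c' : ℕ, c < s → c' < s → s * a + c < N → s * a' + (s - 1) < N →
    |LL w p M N (FF s p a c) (FF s p a' (s - 1 - c'))| ≤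
      2 * Cw w * ((M : ℝ) + 2) ^ 2 * |xx p (max a a' + 1)| ^ (M + 1) * ea p a ^ s *
      ea p a' ^ s * |xx p (a + 1)| ^ c * |xx p (a' + 1)| ^ (s - 1 - c') * ww p N) ∧
  (∀ a c c' : ℕ, c < s → c' < c → s * a + (s - 1) < N →
    |LL w p M N (FF s p a c) (FF s p a (s - 1 - c'))| ≤
      2 * Cw w * ((M : ℝ) + 2) ^ 2 * |xx p (a + 2)| ^ (M + 1) * ea p a ^ (2 * s) *
      |xx p (a + 1)| ^ (c + (s - 1 - c')) * ww p N) ∧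
  (∀ a c : ℕ, c < s → s * a + (s - 1) < N →
    (1 / 2) ^ 14 * |xx p (a + 1)| ^ (M + s) * ea p a ^ (2 * s) * ww p N
      - 2 * Cw w * ((M : ℝ) + 2) ^ 2 * |xx p (a + 2)| ^ (M + 1) * ea p a ^ (2 * s) *
        |xx p (a + 1)| ^ (s - 1) * ww p N ≤
    |LL w p M N (FF s p a c) (FF s p a (s - 1 - c))|)

/-- Abstract nonvanishing lemma, blocks of size `s ≤ 3`. Proof: adapt `QZ/P_NZ2.lean` (at most
`s ≤ 3` columns for each block `a'`, and `0 ≤ c < s ≤ 3`, so all bounds used there hold). -/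
def S_NZ2 : Prop := ∀ (s K : ℕ), 1 ≤ s → s ≤ 3 →
  ∀ (T : Matrix (Fin (s * K)) (Fin (s * K)) ℝ)
  (R R' : ℕ → ℕ → ℝ) (B r δ Λ : ℝ), (∀ a c, 0 < R a c) → (∀ a c, 0 < R' a c) → 0 ≤ B →
  0 < r → r ≤ 1 / 2 → 1 ≤ Λ →
  (∀ i j : Fin (s * K), |T i j| ≤
    B * r ^ (((((i : ℕ) / s : ℕ) : ℤ) - (((j : ℕ) / s : ℕ) : ℤ)).natAbs) *
      R ((i : ℕ) / s) ((i : ℕ) % s) * R' ((j : ℕ) / s) ((j : ℕ) % s)) →
  (∀ i j : Fin (s * K), (i : ℕ) / s = (j : ℕ) / s → (j : ℕ) % s < (i : ℕ) % s →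
    |T i j| ≤ B * r ^ 2 * R ((i : ℕ) / s) ((i : ℕ) % s) * R' ((j : ℕ) / s) ((j : ℕ) % s)) →
  (∀ i : Fin (s * K),
    (δ - B * r ^ 2) * R ((i : ℕ) / s) ((i : ℕ) % s) * R' ((i : ℕ) / s) ((i : ℕ) % s) ≤
      |T i i|) →
  B * (12 * Λ ^ 2 * r + 2 / Λ + 2 * Λ ^ 2 * r ^ 2) + B * r ^ 2 < δ → T.det ≠ 0

/-- Nonvanishing. Proof: adapt `QZ/P_NZ.lean` (uses `QZ.S_PAR` with `C = Cw w`,
`δ = (1/2)^14`, `QZ.S_DET`): `M = 2m-1`, `r = |q|^m`, `N = sK`,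
`R a c = |x_(a+1)|^m e_a^s |x_(a+1)|^c`, `R' a c = w_N |x_(a+1)|^m e_a^s |x_(a+1)|^(s-1-c)`. -/
def S_NZ : Prop := ∀ (w : Polynomial ℤ) (s : ℕ), Adm w s → ∀ p : ℤ, 2 ≤ |p| →
  ∃ M : ℕ, ∀ K : ℕ, (A w p M (s * K)).det ≠ 0

/-! ## F. conclusion -/

/-- Irrationality of all `zeta w p`. Proof: adapt `QZ/P_FIN.lean`. With `N = sK`, `X ≠ 0`,
`p^Σ ∣ X`, `6Σ = N(N-1)(N-2) ≥ N^3 - 3N^2`:
`|p|^(150Σ) ≤ |X|^150 = b^(150N) (|det A|^6)^25 (|DD|^75)^2`, so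
`25 (N^3 - 3N^2) ≤ 150 b N - 25 (s^3+2s^2) K^3 + 25 C K^2 + 16 (s+1) N^3 + 2 C' N^2`, i.e.
`(50 s^3 + 50 s^2 - 16 (s+1) s^3) K^3 = 2 s^2 (s+1) (25 - 8s) K^3 ≤ C'' K^2`, false for large `K`
since `25 - 8s ≥ 1`. -/
def S_FIN : Prop := ∀ (w : Polynomial ℤ) (s : ℕ), Adm w s → ∀ p : ℤ, 2 ≤ |p| →
  Irrational (zeta w p)

end Pool.Agent.H475.QL
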